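import Pool.Agent.H52.W.SH.Stubs2

/-! Project SH: exceptional `d` have exceptional discriminants. -/

set_option autoImplicit false

namespace Pool.Agent.H52.W.SH.EXC

variable [Lam]

open Finset Filter NumberField Pool.Agent.H38R2.CG Pool.Agent.H52.W.CG2 Pool.Agent.H52.W.CG3
open Pool.Agent.H52.W.SH Pool.Agent.H38R2.CG.FINh
open scoped Classical

theorem div_log_mono {u v : ℝ} (hu : Real.exp 1 ≤ u) (huv : u ≤ v) :
    u / Real.log u ≤ v / Real.log v := by
  have h1 := Real.log_div_self_antitoneOn (show u ∈ {x : ℝ | Real.exp 1 ≤ x} from hu)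
    (show v ∈ {x : ℝ | Real.exp 1 ≤ x} from hu.trans huv) huv
  have he : 0 < Real.exp 1 := Real.exp_pos 1
  have hu0 : 0 < u := lt_of_lt_of_le he hu
  have hv0 : 0 < v := lt_of_lt_of_le hu0 huv
  have hlu : 0 < Real.log u := by
    have : 1 ≤ Real.log u := by
      rw [Real.le_log_iff_exp_le hu0]
      exact hu
    linarith
  have hlv : 0 < Real.log v := by
    have : 1 ≤ Real.log v := by
      rw [Real.le_log_iff_exp_le hv0]
      exact hu.trans huv
    linarith
  simp only at h1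
  rw [div_le_div_iff₀ hv0 hu0] at h1
  rw [div_le_div_iff₀ hlu hlv]
  linarith

theorem main (hN0 : P_N0) (hN0d : P_N0d) (hN1 : P_N1) (hN3 : P_N3) (h4 : P_N4) (hKF : P_KF)
    (h5b : P_N5b) (hN6 : P_N6) : Q_EXC := by
  intro a ha ε
  obtain ⟨X1, hX1⟩ := params a ha
  have hlog : Tendsto (fun X : ℕ => Real.log X) atTop atTop :=
    Real.tendsto_log_atTop.comp tendsto_natCast_atTop_atTop
  obtain ⟨X2, hX2⟩ := eventually_atTop.1 (hlog.eventually_ge_atTop (Real.exp 1))
  refine ⟨max (max X1 X2) 1, fun X hX T hXT d hd1 hds hg hTD hDT => ?_⟩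
  have hXa : X1 ≤ X := le_trans (le_trans (le_max_left _ _) (le_max_left _ _)) hX
  have hXb : X2 ≤ X := le_trans (le_trans (le_max_right _ _) (le_max_left _ _)) hX
  have hXc : 1 ≤ X := le_trans (le_max_right _ _) hX
  have hfund := isFund_Dof hd1 hds
  refine ⟨hfund, ?_⟩
  have hXR : (1 : ℝ) ≤ X := by exact_mod_cast hXc
  have hXTR : (X : ℝ) ≤ T := by exact_mod_cast hXT
  have hd4 : (X : ℝ) / 4 ≤ d := by
    have h1 : T < 4 * d := lt_of_lt_of_le hTD (Dof_le d)
    have h2 : (T : ℝ) < 4 * d := by exact_mod_cast h1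
    linarith
  have hpar : 2 * (yA a X : ℝ) ≤ (Real.log d) ^ a ∧
      2 * (kA a X : ℝ) ≤ Real.log d / Real.log (Real.log d) ∧ 2 ≤ yA a X := by
    rcases le_or_gt (d : ℝ) (2 * X) with h | h
    · exact hX1 X hXa d hd4 h
    · obtain ⟨p1, p2, p3⟩ := hX1 X hXa (X : ℝ) (by linarith) (by linarith)
      have hlX : Real.exp 1 ≤ Real.log X := hX2 X hXb
      have hlX0 : 0 < Real.log X := lt_of_lt_of_le (Real.exp_pos 1) hlX
      have hlXd : Real.log X ≤ Real.log d := Real.log_le_log (by linarith) (by linarith)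
      refine ⟨p1.trans ?_, p2.trans (div_log_mono hlX hlXd), p3⟩
      exact Real.rpow_le_rpow hlX0.le hlXd (by linarith)
  obtain ⟨hy, hk, hy2⟩ := hpar
  unfold GoodE at hg
  push Not at hg
  obtain ⟨K, iF, iN, hrank, hx, hng⟩ := hg
  have hdisc : NumberField.discr K = ((Dof d : ℕ) : ℤ) := by
    rw [hN0d K d hd1 hds hrank hx]
    unfold Dof
    split_ifs <;> simp
  refine bd_of_not_equi hN0 hN1 hN3 h4 hKF h5b hN6 a _ X (Dof d) hy2 hfund K hrank hdisc ?_
  intro heq
  refine hng ?_ (gen_of_equi K (yA a X) (kA a X) _ (min_le_right _ _) heq _ _ hy hk)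
  refine ⟨yA a X, kA a X, hy, hk, heq.1, heq.2.trans ?_⟩
  exact mul_le_mul_of_nonneg_right (min_le_left _ _) (by positivity)

end Pool.Agent.H52.W.SH.EXC
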