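import Pool.Agent.H52.V.S8.H951R5.AR.Gen
import Pool.Agent.H52.W.SH.EXC

/-!
# Project SH: exceptional `d` have exceptional discriminants, with the property of the Arakelov class group

The first part is copied from the library file `H951R5/AR/Fin.lean`.
-/

set_option autoImplicit false

namespace Pool.Agent.H52.W.SH.AR

variable [Lam]

open Finset Filter NumberField Pool.Agent.H38R2.CG Pool.Agent.H52.W.CG2 Pool.Agent.H52.W.CG3
open Pool.Agent.H52.W.SH Pool.Agent.H951R5.AR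
open Pool.Agent.H38R2.CG.AS1h Pool.Agent.H38R2.CG.FINh
open scoped Classical

/-- a quadratic field has at most two real embeddings -/
theorem emb_two {K : Type} [Field K] [NumberField K] (h2 : Module.finrank ℚ K = 2)
    (σ τ ρ : K →+* ℝ) (h : σ ≠ τ) : ρ = σ ∨ ρ = τ := by
  by_contra hcon
  push Not at hcon
  have hinj : ∀ f g : K →+* ℝ, (Complex.ofRealHom).comp f = (Complex.ofRealHom).comp g → f = g := by
    intro f g hfg
    ext x
    have h1 := congrArg (fun φ : K →+* ℂ => φ x) hfg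
    simpa using h1
  have hcard : Fintype.card (K →+* ℂ) = 2 := by
    rw [NumberField.Embeddings.card K ℂ, h2]
  have h3 : ({(Complex.ofRealHom).comp σ, (Complex.ofRealHom).comp τ,
      (Complex.ofRealHom).comp ρ} : Finset (K →+* ℂ)).card = 3 := by
    rw [Finset.card_eq_three]
    refine ⟨_, _, _, ?_, ?_, ?_, rfl⟩
    · exact fun h4 => h (hinj _ _ h4)
    · exact fun h4 => hcon.1 (hinj _ _ h4).symm
    · exact fun h4 => hcon.2 (hinj _ _ h4).symm
  have h4 := Finset.card_le_univ ({(Complex.ofRealHom).comp σ, (Complex.ofRealHom).comp τ,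
      (Complex.ofRealHom).comp ρ} : Finset (K →+* ℂ))
  rw [h3, hcard] at h4
  omega

theorem covers_mono {K : Type} [Field K] [NumberField K] {σ τ : K →+* ℝ} {B B' n n' : ℝ}
    (h : Covers K σ τ B n) (hB : B ≤ B') (hn : n ≤ n') : Covers K σ τ B' n' := by
  intro I hI t
  obtain ⟨A, x, h1, h2, h3, h4⟩ := h I hI t
  exact ⟨A, x, h1.mono hB hn, h2, h3, h4⟩

theorem covers_swap {K : Type} [Field K] [NumberField K] {σ τ : K →+* ℝ} {B n : ℝ}
    (h : Covers K σ τ B n) : Covers K τ σ B n := by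
  intro I hI t
  obtain ⟨A, x, h1, h2, h3, h4⟩ := h I hI (-t)
  refine ⟨A, x, h1, ⟨h2.2, h2.1⟩, h3, ?_⟩
  have h5 : Real.log (τ x / σ x) = - Real.log (σ x / τ x) := by
    rw [← Real.log_inv, inv_div]
  rw [h5]
  rw [abs_le] at *
  constructor <;> linarith [h4.1, h4.2]

/-- outside the exceptional discriminants the covering property holds -/
theorem covers_of_not_bd (hN0 : P_N0) (hN1 : P_N1) (hN3 : P_N3) (hN5 : P_N5) (hN6 : P_N6)
    (a t0 : ℝ) (ht0 : t0 ≤ 1) (X D : ℕ) (hy : 2 ≤ yA a X) (hD : IsFund D)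
    (K : Type) [Field K] [NumberField K] (h2 : Module.finrank ℚ K = 2)
    (hK : NumberField.discr K = (D : ℤ)) (hb : ¬ Bd a t0 X D) (σ τ : K →+* ℝ) (hne : σ ≠ τ) :
    Covers K σ τ (2 * (yA a X : ℝ)) (2 * (kA a X : ℝ)) := by
  obtain ⟨e⟩ := hN0 K D hD h2 hK
  have hS : ∀ s ∈ SA a X, s ⊆ PP (yA a X) ∧ s.card = kA a X := by
    intro s hs
    exact mem_powersetCard.1 hs
  have hP : ∀ s ∈ SA a X, ∀ p ∈ s, p.Prime ∧ yA a X < p ∧ p ≤ 2 * yA a X := by
    intro s hs p hp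
    have h3 := (hS s hs).1 hp
    simp only [PP, mem_filter, mem_Ioc] at h3
    exact ⟨h3.2, h3.1.1, h3.1.2⟩
  have hf : ∀ s ∈ SA a X, (0 : ℝ) ≤ (fun _ : Finset ℕ => (1 : ℝ)) s ∧
      ∀ p ∈ s, p.Prime ∧ p ≠ 2 := by
    intro s hs
    refine ⟨zero_le_one, fun p hp => ?_⟩
    have h3 := hP s hs p hp
    exact ⟨h3.1, by omega⟩
  have hlt : 2 * √(D : ℝ) * Lone D * SD D (SA a X) (fun _ => 1) <
      2 * (MD D (SA a X) (fun _ => 1)) ^ 2 := by
    unfold Bd at hb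
    push Not at hb
    refine hb.trans_le ?_
    exact mul_le_mul_of_nonneg_right (by linarith) (sq_nonneg _)
  have hcov : Covers K e.σ e.τ (2 * (yA a X : ℝ)) (2 * (kA a X : ℝ)) := by
    intro I hI t
    obtain ⟨s, hs, s', hs', A, B, hA, hB, x, h3, h4, h5, h6⟩ :=
      cover_all hN1 hN3 hN5 hN6 hD h2 hK e (SA a X) (fun _ => 1) hf hlt I hI t
    refine ⟨A * B, x, ?_, ⟨h3, h4⟩, h5, h6⟩
    have hle : ∀ s ∈ SA a X, ∀ p ∈ s, (p : ℝ) ≤ 2 * (yA a X : ℝ) := by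
      intro s hs p hp
      exact_mod_cast (hP s hs p hp).2.2
    have hA' := smallProd_of_norm s (fun p hp => (hP s hs p hp).1) _ (hle s hs) A hA
    have hB' := smallProd_of_norm s' (fun p hp => (hP s' hs' p hp).1) _ (hle s' hs') B hB
    rw [(hS s hs).2] at hA'
    rw [(hS s' hs').2] at hB'
    exact (hA'.mul hB').mono le_rfl (by linarith)
  have hne' : e.σ ≠ e.τ := e.ne
  rcases emb_two h2 e.σ e.τ σ hne' with h3 | h3
  · rcases emb_two h2 e.σ e.τ τ hne' with h4 | h4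
    · exact absurd (h3.trans h4.symm) hne
    · rw [h3, h4]; exact hcov
  · rcases emb_two h2 e.σ e.τ τ hne' with h4 | h4
    · rw [h3, h4]; exact covers_swap hcov
    · exact absurd (h3.trans h4.symm) hne

/-- parameters: `d` may be much larger than `X` -/
theorem par (a : ℝ) (ha : 2 < a) : ∃ X1 : ℕ, ∀ X ≥ X1, ∀ T : ℕ, X ≤ T → ∀ d : ℕ, T < Dof d →
    2 * (yA a X : ℝ) ≤ (Real.log d) ^ a ∧
      2 * (kA a X : ℝ) ≤ Real.log d / Real.log (Real.log d) ∧ 2 ≤ yA a X := by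
  obtain ⟨X1, hX1⟩ := params a ha
  have hlog : Tendsto (fun X : ℕ => Real.log X) atTop atTop :=
    Real.tendsto_log_atTop.comp tendsto_natCast_atTop_atTop
  obtain ⟨X2, hX2⟩ := eventually_atTop.1 (hlog.eventually_ge_atTop (Real.exp 1))
  refine ⟨max (max X1 X2) 1, fun X hX T hXT d hTD => ?_⟩
  have hXa : X1 ≤ X := le_trans (le_trans (le_max_left _ _) (le_max_left _ _)) hX
  have hXb : X2 ≤ X := le_trans (le_trans (le_max_right _ _) (le_max_left _ _)) hX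
  have hXc : 1 ≤ X := le_trans (le_max_right _ _) hX
  have hXR : (1 : ℝ) ≤ X := by exact_mod_cast hXc
  have hXTR : (X : ℝ) ≤ T := by exact_mod_cast hXT
  have hd4 : (X : ℝ) / 4 ≤ d := by
    have h1 : T < 4 * d := lt_of_lt_of_le hTD (Dof_le d)
    have h2 : (T : ℝ) < 4 * d := by exact_mod_cast h1
    linarith
  rcases le_or_gt (d : ℝ) (2 * X) with h | h
  · exact hX1 X hXa d hd4 h
  · obtain ⟨p1, p2, p3⟩ := hX1 X hXa (X : ℝ) (by linarith) (by linarith)
    have hlX : Real.exp 1 ≤ Real.log X := hX2 X hXb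
    have hlX0 : 0 < Real.log X := lt_of_lt_of_le (Real.exp_pos 1) hlX
    have hlXd : Real.log X ≤ Real.log d := Real.log_le_log (by linarith) (by linarith)
    refine ⟨p1.trans ?_, p2.trans (EXC.div_log_mono hlX hlXd), p3⟩
    exact Real.rpow_le_rpow hlX0.le hlXd (by linarith)

/-- the exceptional d have exceptional discriminants -/
theorem exc_ar (hN0 : P_N0) (hN0d : P_N0d) (hN1 : P_N1) (hN3 : P_N3) (hN5 : P_N5)
    (hN6 : P_N6) (a : ℝ) (ha : 2 < a) (t0 : ℝ) (ht0 : t0 ≤ 1) :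
    ∃ X1 : ℕ, ∀ X ≥ X1, ∀ T : ℕ, X ≤ T → ∀ d : ℕ, 1 < d → Squarefree d → ¬ GoodAR a d →
      T < Dof d → IsFund (Dof d) ∧ Bd a t0 X (Dof d) := by
  obtain ⟨X1, hX1⟩ := par a ha
  refine ⟨X1, fun X hX T hXT d hd1 hds hg hTD => ?_⟩
  have hfund := isFund_Dof hd1 hds
  refine ⟨hfund, ?_⟩
  obtain ⟨hy, hk, hy2⟩ := hX1 X hX T hXT d hTD
  by_contra hb
  apply hg
  intro K iF iN hrank hx σ τ hne
  have hdisc : NumberField.discr K = ((Dof d : ℕ) : ℤ) := by
    rw [hN0d K d hd1 hds hrank hx]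
    unfold Dof
    split_ifs <;> simp
  have hcov := covers_mono (covers_of_not_bd hN0 hN1 hN3 hN5 hN6 a t0 ht0 X (Dof d) hy2 hfund
    K hrank hdisc hb σ τ hne) hy hk
  have hn : 0 ≤ Real.log d / Real.log (Real.log d) := by
    refine le_trans ?_ hk
    positivity
  exact ⟨hcov, fun u hu => sunit_gen hn hcov hu, ufd_iff hn hcov⟩

/-- SH-EXC with both properties -/
def Q_EXCF : Prop := ∀ a : ℝ, 2 < a → ∀ ε : ℝ, ∃ X1 : ℕ, ∀ X ≥ X1, ∀ T : ℕ, X ≤ T →
  ∀ d : ℕ, 1 < d → Squarefree d → ¬ (GoodE a ε d ∧ GoodAR a d) → T < Dof d → Dof d ≤ 2 * T →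
    IsFund (Dof d) ∧ Bd a (min ε (1 / 4)) X (Dof d)

theorem main (hN0 : P_N0) (hN0d : P_N0d) (hN1 : P_N1) (hN3 : P_N3) (hN5 : P_N5) (hN6 : P_N6)
    (hE : Q_EXC) : Q_EXCF := by
  intro a ha ε
  obtain ⟨X1, hX1⟩ := hE a ha ε
  obtain ⟨X2, hX2⟩ := exc_ar hN0 hN0d hN1 hN3 hN5 hN6 a ha (min ε (1 / 4))
    ((min_le_right _ _).trans (by norm_num))
  refine ⟨max X1 X2, fun X hX T hXT d hd1 hds hg hTD hDT => ?_⟩
  by_cases h : GoodE a ε d
  · have h' : ¬ GoodAR a d := fun h2 => hg ⟨h, h2⟩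
    exact hX2 X ((le_max_right _ _).trans hX) T hXT d hd1 hds h' hTD
  · exact hX1 X ((le_max_left _ _).trans hX) T hXT d hd1 hds h hTD hDT

end Pool.Agent.H52.W.SH.AR
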