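import Pool.Agent.H52.W.SH.Stubs2
import Pool.Agent.H52.W.SH.AR
import Pool.Agent.H52.W.CG2.PF

/-!
# Project SH: from pieces to all short intervals
-/

set_option autoImplicit false

namespace Pool.Agent.H52.W.SH.Final

variable [Lam]

open Finset Filter NumberField Pool.Agent.H38R2.CG Pool.Agent.H52.W.CG2 Pool.Agent.H52.W.CG3
open Pool.Agent.H38R2.CG.FINh Pool.Agent.H52.W.SR
open Pool.Agent.H951R5.AR
open scoped Classical

/-- many pieces -/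
lemma pieces (P : ℕ → Prop) (A L X : ℕ) (B : ℝ)
    (h : ∀ T, A ≤ T → T ≤ A + L → (((Finset.Ioc T (T + X)).filter P).card : ℝ) ≤ B) :
    ∀ n : ℕ, n * X ≤ L + X → (((Finset.Ioc A (A + n * X)).filter P).card : ℝ) ≤ n * B := by
  intro n
  induction n with
  | zero =>
    intro _
    simp
  | succ n ih =>
    intro hn
    have h1 : n * X ≤ L := by
      have : (n + 1) * X = n * X + X := by ring
      omega
    have h2 := ih (by omega)
    have h3 := h (A + n * X) (by omega) (by omega)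
    have hsub : (Finset.Ioc A (A + (n + 1) * X)).filter P ⊆
        (Finset.Ioc A (A + n * X)).filter P ∪
          (Finset.Ioc (A + n * X) (A + n * X + X)).filter P := by
      intro D hD
      rw [Finset.mem_filter, Finset.mem_Ioc] at hD
      rw [Finset.mem_union, Finset.mem_filter, Finset.mem_filter, Finset.mem_Ioc, Finset.mem_Ioc]
      have h4 : (n + 1) * X = n * X + X := by ring
      by_cases h5 : D ≤ A + n * X
      · exact Or.inl ⟨⟨hD.1.1, h5⟩, hD.2⟩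
      · exact Or.inr ⟨⟨by omega, by omega⟩, hD.2⟩
    have h4 := (Finset.card_le_card hsub).trans (Finset.card_union_le _ _)
    have h5 : (((Finset.Ioc A (A + (n + 1) * X)).filter P).card : ℝ) ≤
        ((Finset.Ioc A (A + n * X)).filter P).card +
          ((Finset.Ioc (A + n * X) (A + n * X + X)).filter P).card := by
      exact_mod_cast h4
    push_cast
    linarith

/-- covering an interval by shorter ones -/
lemma cut (P : ℕ → Prop) (A L X : ℕ) (B : ℝ) (hX : 1 ≤ X) (hXL : X ≤ L) (hB : 0 ≤ B)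
    (h : ∀ T, A ≤ T → T ≤ A + L → (((Finset.Ioc T (T + X)).filter P).card : ℝ) ≤ B * X) :
    (((Finset.Ioc A (A + L)).filter P).card : ℝ) ≤ 2 * L * B := by
  have hmod := Nat.div_add_mod L X
  have hlt := Nat.mod_lt L (show X > 0 by omega)
  set n := L / X with hn
  have e1 : (n + 1) * X = X * n + X := by ring
  have h1 : (n + 1) * X ≤ L + X := by
    rw [e1]
    omega
  have h2 : L ≤ (n + 1) * X := by
    rw [e1]
    omega
  have hn1 : 1 ≤ n := by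
    rw [hn]
    exact (Nat.one_le_div_iff (by omega)).2 hXL
  have h3 := pieces P A L X (B * X) h (n + 1) h1
  have h4 : ((Finset.Ioc A (A + L)).filter P) ⊆ ((Finset.Ioc A (A + (n + 1) * X)).filter P) :=
    Finset.filter_subset_filter _ (Finset.Ioc_subset_Ioc_right (by omega))
  have h5 : (((Finset.Ioc A (A + L)).filter P).card : ℝ) ≤
      ((Finset.Ioc A (A + (n + 1) * X)).filter P).card := by
    exact_mod_cast Finset.card_le_card h4
  refine h5.trans (h3.trans ?_)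
  have h6 : ((n + 1 : ℕ) : ℝ) * X ≤ 2 * L := by
    have h7 : (n + 1) * X ≤ 2 * L := by
      rw [e1]
      omega
    exact_mod_cast h7
  calc ((n + 1 : ℕ) : ℝ) * (B * X) = (((n + 1 : ℕ) : ℝ) * X) * B := by ring
    _ ≤ _ := mul_le_mul_of_nonneg_right h6 hB

/-- the length of the pieces -/
lemma size (θ β η : ℝ) (hθ : 1 / 2 < θ) (hθ1 : θ ≤ 1) (hβ : 1 / 2 < θ * β) (hη : 0 < η)
    (hη1 : η ≤ 1) (X0 : ℕ) : ∃ A0 : ℕ, ∀ A ≥ A0, ∀ L : ℕ, (A : ℝ) ^ θ ≤ L → L ≤ A →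
      ∃ X : ℕ, X0 ≤ X ∧ 1 ≤ X ∧ X ≤ L ∧ (X : ℝ) ≤ η * A ∧ √(2 * A : ℝ) ≤ (X : ℝ) ^ β ∧
        ⌊√(A : ℝ)⌋₊ ≤ X := by
  have hβ0 : 0 < β := by
    by_contra hb
    push Not at hb
    nlinarith
  have t1 : Tendsto (fun X : ℕ => (X : ℝ) ^ (θ * β - 1 / 2)) atTop atTop :=
    (tendsto_rpow_atTop (by linarith)).comp tendsto_natCast_atTop_atTop
  have t2 : Tendsto (fun X : ℕ => (X : ℝ) ^ (θ - 1 / 2)) atTop atTop :=
    (tendsto_rpow_atTop (by linarith)).comp tendsto_natCast_atTop_atTop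
  have t3 : Tendsto (fun X : ℕ => (X : ℝ)) atTop atTop := tendsto_natCast_atTop_atTop
  set c : ℝ := η / 2 with hc
  have hc0 : 0 < c := by positivity
  obtain ⟨N1, hN1⟩ := Filter.eventually_atTop.mp (t1.eventually_ge_atTop (√2 / c ^ β))
  obtain ⟨N2, hN2⟩ := Filter.eventually_atTop.mp (t2.eventually_ge_atTop (1 / c))
  obtain ⟨N3, hN3⟩ := Filter.eventually_atTop.mp (t3.eventually_ge_atTop
    (2 / η + ((X0 : ℝ) / c) ^ 2 + 1))
  refine ⟨max N1 (max N2 N3), fun A hA L hL1 hL2 => ?_⟩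
  have a1 := hN1 A ((le_max_left _ _).trans hA)
  have a2 := hN2 A ((le_max_left _ _).trans ((le_max_right _ _).trans hA))
  have a3 := hN3 A ((le_max_right _ _).trans ((le_max_right _ _).trans hA))
  have hx0 : 0 ≤ (X0 : ℝ) / c := by positivity
  have hA1 : (1 : ℝ) ≤ A := by
    have : 0 ≤ 2 / η := by positivity
    nlinarith [sq_nonneg ((X0 : ℝ) / c)]
  have hA0 : (0 : ℝ) < A := by linarith
  have hηA : 2 ≤ η * A := by
    have h1 : 2 / η ≤ A := by nlinarith [sq_nonneg ((X0 : ℝ) / c)]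
    rw [div_le_iff₀ hη] at h1
    linarith
  -- lower bound
  have hlow : c * (A : ℝ) ^ θ ≤ ((min L ⌊η * (A : ℝ)⌋₊ : ℕ) : ℝ) := by
    push_cast
    apply le_min
    · have : 0 ≤ (A : ℝ) ^ θ := by positivity
      nlinarith
    · have h1 : η * (A : ℝ) - 1 < ((⌊η * (A : ℝ)⌋₊ : ℕ) : ℝ) := Nat.sub_one_lt_floor _
      have h2 : (A : ℝ) ^ θ ≤ A := by
        calc (A : ℝ) ^ θ ≤ (A : ℝ) ^ (1 : ℝ) := Real.rpow_le_rpow_of_exponent_le hA1 hθ1
          _ = A := Real.rpow_one _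
      have h3 : c * (A : ℝ) ^ θ ≤ c * A := mul_le_mul_of_nonneg_left h2 hc0.le
      have h4 : c * (A : ℝ) = η * A / 2 := by rw [hc]; ring
      linarith
  have hsplit1 : (A : ℝ) ^ θ = (A : ℝ) ^ (θ - 1 / 2) * √(A : ℝ) := by
    rw [Real.sqrt_eq_rpow, ← Real.rpow_add hA0]
    ring_nf
  have hsA : 0 < √(A : ℝ) := Real.sqrt_pos.2 hA0
  have hs2 : √(A : ℝ) ≤ c * (A : ℝ) ^ θ := by
    rw [hsplit1]
    rw [div_le_iff₀ hc0] at a2
    calc √(A : ℝ) = 1 * √(A : ℝ) := by ring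
      _ ≤ ((A : ℝ) ^ (θ - 1 / 2) * c) * √(A : ℝ) := mul_le_mul_of_nonneg_right a2 hsA.le
      _ = _ := by ring
  have hX0 : (X0 : ℝ) / c ≤ √(A : ℝ) := by
    apply Real.le_sqrt_of_sq_le
    have : 0 ≤ 2 / η := by positivity
    linarith
  have hc1 : c ≤ 1 := by
    rw [hc]
    linarith
  have hX0' : (X0 : ℝ) ≤ √(A : ℝ) := by
    have h1 : (X0 : ℝ) ≤ √(A : ℝ) * c := (div_le_iff₀ hc0).1 hX0
    nlinarith
  refine ⟨min L ⌊η * (A : ℝ)⌋₊, ?_, ?_, min_le_left _ _, ?_, ?_, ?_⟩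
  · have : (X0 : ℝ) ≤ ((min L ⌊η * (A : ℝ)⌋₊ : ℕ) : ℝ) := hX0'.trans (hs2.trans hlow)
    exact_mod_cast this
  · have h1 : 1 ≤ √(A : ℝ) := by rwa [Real.one_le_sqrt]
    have : (1 : ℝ) ≤ ((min L ⌊η * (A : ℝ)⌋₊ : ℕ) : ℝ) := h1.trans (hs2.trans hlow)
    exact_mod_cast this
  · calc (((min L ⌊η * (A : ℝ)⌋₊ : ℕ)) : ℝ) ≤ ((⌊η * (A : ℝ)⌋₊ : ℕ) : ℝ) := by
          exact_mod_cast min_le_right _ _
      _ ≤ _ := Nat.floor_le (by positivity)
  · have h1 : (c * (A : ℝ) ^ θ) ^ β ≤ (((min L ⌊η * (A : ℝ)⌋₊ : ℕ)) : ℝ) ^ β :=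
      Real.rpow_le_rpow (by positivity) hlow hβ0.le
    refine le_trans ?_ h1
    rw [Real.mul_rpow hc0.le (by positivity), ← Real.rpow_mul hA0.le]
    have h2 : (A : ℝ) ^ (θ * β) = (A : ℝ) ^ (θ * β - 1 / 2) * √(A : ℝ) := by
      rw [Real.sqrt_eq_rpow, ← Real.rpow_add hA0]
      ring_nf
    rw [h2, Real.sqrt_mul (by norm_num)]
    have hcb : 0 < c ^ β := Real.rpow_pos_of_pos hc0 _
    rw [div_le_iff₀ hcb] at a1
    calc √2 * √(A : ℝ) ≤ ((A : ℝ) ^ (θ * β - 1 / 2) * c ^ β) * √(A : ℝ) :=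
          mul_le_mul_of_nonneg_right a1 hsA.le
      _ = _ := by ring
  · have h1 : ((⌊√(A : ℝ)⌋₊ : ℕ) : ℝ) ≤ √(A : ℝ) := Nat.floor_le hsA.le
    have : ((⌊√(A : ℝ)⌋₊ : ℕ) : ℝ) ≤ ((min L ⌊η * (A : ℝ)⌋₊ : ℕ) : ℝ) :=
      h1.trans (hs2.trans hlow)
    exact_mod_cast this

/-- exceptional discriminants, in an interval `(A, A + L]` -/
theorem core (hSQ : Q_SQ) (hEXC : SH.AR.Q_EXCF) (hCH : P2_CH) (a θ ε τ : ℝ) (ha : 2 < a)
    (hθ2 : 1 / 2 < θ) (hkey : 1 / (2 * θ) < ee a) (hθ1 : θ ≤ 1) (hε : 0 < ε) (hτ : 0 < τ) :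
    ∃ A0 : ℕ, ∀ A ≥ A0, ∀ L : ℕ, (A : ℝ) ^ θ ≤ L → L ≤ A → ∀ Q : Set ℕ,
      (((Finset.Ioc A (A + L)).filter (fun D => ∃ d : ℕ, 1 < d ∧ Squarefree d ∧
        ((∀ q ∈ Q, q.Prime → ¬ q ∣ d) ∧ ¬ (GoodE a ε d ∧ GoodAR a d)) ∧ D = Dof d)).card : ℝ) ≤
      τ * L * pq Q A := by
  have hθ0 : 0 < θ := by linarith
  set κ : ℝ := (ee a - 1 / (2 * θ)) / 2 with hκ
  have hκ0 : 0 < κ := by
    rw [hκ]
    linarith
  set β : ℝ := ee a - κ with hβ
  have hβ2 : 1 / (2 * θ) < β := by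
    rw [hβ, hκ]
    linarith
  have hθβ : 1 / 2 < θ * β := by
    have : θ * (1 / (2 * θ)) = 1 / 2 := by field_simp
    nlinarith
  have ht0 : 0 < min ε (1 / 4) := lt_min hε (by norm_num)
  obtain ⟨L1, hL0, hL1, -, -⟩ := id hCH
  have hE : 0 < Real.exp (2 * L1) := Real.exp_pos _
  set τ' : ℝ := τ / (2 * Real.exp (2 * L1)) with hτ'
  have hτ'0 : 0 < τ' := by positivity
  obtain ⟨η, hη, hη1, X0, hX0⟩ := hSQ a ha κ hκ0 _ ht0 τ' hτ'0
  obtain ⟨X1, hX1⟩ := hEXC a ha ε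
  obtain ⟨A0, hA0⟩ := size θ β η hθ2 hθ1 hθβ hη hη1 (max X0 X1)
  refine ⟨max A0 1, fun A hA L hAL hLA Q => ?_⟩
  have hA1 : 1 ≤ A := (le_max_right _ _).trans hA
  obtain ⟨X, hX2, hX3, hXL, hXη, hXβ, hXs⟩ := hA0 A ((le_max_left _ _).trans hA) L hAL hLA
  have hXX0 : X0 ≤ X := (le_max_left _ _).trans hX2
  have hXX1 : X1 ≤ X := (le_max_right _ _).trans hX2
  have hpX : pq Q X ≤ Real.exp (2 * L1) * pq Q A :=
    (pq_anti Q hXs).trans (pq_sqrt hL1 Q A hA1)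
  have hpA := pq_pos Q A
  have hcut := cut (fun D => ∃ d : ℕ, 1 < d ∧ Squarefree d ∧
        ((∀ q ∈ Q, q.Prime → ¬ q ∣ d) ∧ ¬ (GoodE a ε d ∧ GoodAR a d)) ∧ D = Dof d) A L X
        (τ' * (Real.exp (2 * L1) * pq Q A)) hX3 hXL (by positivity) ?_
  · refine hcut.trans (le_of_eq ?_)
    rw [hτ']
    field_simp
  · intro T hAT hTL
    have hXT : X ≤ T := (hXL.trans hLA).trans hAT
    have hT2 : (T : ℝ) ≤ 2 * A := by
      have : T ≤ 2 * A := by omega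
      exact_mod_cast this
    have hRG : RG a κ X T := by
      refine ⟨hXT, ?_⟩
      exact (Real.sqrt_le_sqrt hT2).trans hXβ
    have hηT : (X : ℝ) ≤ η * T := by
      have : (A : ℝ) ≤ T := by exact_mod_cast hAT
      nlinarith
    have h3 := hX0 X hXX0 T hRG hηT Q
    have hsub : ((Finset.Ioc T (T + X)).filter (fun D => ∃ d : ℕ, 1 < d ∧ Squarefree d ∧
        ((∀ q ∈ Q, q.Prime → ¬ q ∣ d) ∧ ¬ (GoodE a ε d ∧ GoodAR a d)) ∧ D = Dof d)) ⊆
        (Finset.Ioc T (T + X)).filter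
          (fun D => (∀ q ∈ Q, q.Prime → 3 ≤ q → ¬ q ∣ D) ∧
            IsFund D ∧ Bd a (min ε (1 / 4)) X D) := by
      intro D hD
      rw [Finset.mem_filter] at hD ⊢
      obtain ⟨hD1, d, hd1, hds, ⟨hdQ, hg⟩, rfl⟩ := hD
      refine ⟨hD1, ?_, ?_⟩
      · intro q hq hqp hq3 hqd
        apply hdQ q hq hqp
        unfold Dof at hqd
        split_ifs at hqd
        · exact hqd
        · rcases (Nat.Prime.dvd_mul hqp).1 hqd with h5 | h5
          · exfalso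
            have h6 : q ∣ 2 ^ 2 := by norm_num; exact h5
            have h7 := hqp.dvd_of_dvd_pow h6
            have := Nat.le_of_dvd (by norm_num) h7
            omega
          · exact h5
      · refine hX1 X hXX1 T hXT d hd1 hds hg (Finset.mem_Ioc.1 hD1).1 ?_
        have h1 := (Finset.mem_Ioc.1 hD1).2
        omega
    have h4 : (((Finset.Ioc T (T + X)).filter (fun D => ∃ d : ℕ, 1 < d ∧ Squarefree d ∧
        ((∀ q ∈ Q, q.Prime → ¬ q ∣ d) ∧ ¬ (GoodE a ε d ∧ GoodAR a d)) ∧ D = Dof d)).card : ℝ) ≤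
        τ' * X * pq Q X := by
      refine le_trans ?_ h3
      exact_mod_cast Finset.card_le_card hsub
    refine h4.trans ?_
    calc τ' * X * pq Q X ≤ τ' * X * (Real.exp (2 * L1) * pq Q A) :=
          mul_le_mul_of_nonneg_left hpX (by positivity)
      _ = _ := by ring

/-- the radicands, with the product over the odd primes -/
theorem radicands (hSQ : Q_SQ) (hEXC : SH.AR.Q_EXCF) (hCH : P2_CH) (a θ ε τ : ℝ) (ha : 2 < a)
    (hθ2 : 1 / 2 < θ) (hkey : 1 / (2 * θ) < ee a) (hθ1 : θ ≤ 1) (hε : 0 < ε) (hτ : 0 < τ) :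
    ∃ x0 : ℕ, ∀ x ≥ x0, ∀ H : ℕ, (x : ℝ) ^ θ ≤ H → H ≤ x → ∀ Q : Set ℕ,
      (((Finset.Ioc x (x + H)).filter (fun d => Squarefree d ∧
        (∀ q ∈ Q, q.Prime → ¬ q ∣ d) ∧ ¬ (GoodE a ε d ∧ GoodAR a d))).card : ℝ) ≤
      τ * H * pq Q x := by
  obtain ⟨A0, hA0⟩ := core hSQ hEXC hCH a θ ε (τ / 5) ha hθ2 hkey hθ1 hε (by positivity)
  refine ⟨max A0 1, fun x hx H hxH hHx Q => ?_⟩
  have hxA : A0 ≤ x := (le_max_left _ _).trans hx
  have hx1 : 1 ≤ x := (le_max_right _ _).trans hx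
  have hθ0 : 0 < θ := by linarith
  have h1 := hA0 x hxA H hxH hHx Q
  have h2 := hA0 (4 * x) (by omega) (4 * H) (by
    push_cast
    rw [Real.mul_rpow (by norm_num) (by positivity)]
    have h4 : (4 : ℝ) ^ θ ≤ 4 := by
      calc (4 : ℝ) ^ θ ≤ (4 : ℝ) ^ (1 : ℝ) :=
            Real.rpow_le_rpow_of_exponent_le (by norm_num) hθ1
        _ = 4 := Real.rpow_one _
    calc (4 : ℝ) ^ θ * (x : ℝ) ^ θ ≤ 4 * (x : ℝ) ^ θ :=
          mul_le_mul_of_nonneg_right h4 (by positivity)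
      _ ≤ 4 * H := by linarith) (by omega) Q
  set R : ℕ → Prop := fun D => ∃ d : ℕ, 1 < d ∧ Squarefree d ∧
        ((∀ q ∈ Q, q.Prime → ¬ q ∣ d) ∧ ¬ (GoodE a ε d ∧ GoodAR a d)) ∧ D = Dof d with hR
  have hcn : ((Finset.Ioc x (x + H)).filter (fun d => Squarefree d ∧
        (∀ q ∈ Q, q.Prime → ¬ q ∣ d) ∧ ¬ (GoodE a ε d ∧ GoodAR a d))).card ≤
        (((Finset.Ioc x (x + H)).filter R) ∪
          ((Finset.Ioc (4 * x) (4 * x + 4 * H)).filter R)).card := by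
    refine Finset.card_le_card_of_injOn Dof ?_ ?_
    · intro d hd
      rw [Finset.mem_coe, Finset.mem_filter, Finset.mem_Ioc] at hd
      rw [Finset.mem_coe, Finset.mem_union, Finset.mem_filter, Finset.mem_filter,
        Finset.mem_Ioc, Finset.mem_Ioc]
      have h1 : 1 < d := by omega
      have hRd : R (Dof d) := ⟨d, h1, hd.2.1, hd.2.2, rfl⟩
      by_cases h4 : d % 4 = 1
      · left
        refine ⟨?_, hRd⟩
        rw [Dof, if_pos h4]
        exact ⟨hd.1.1, hd.1.2⟩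
      · right
        refine ⟨?_, hRd⟩
        rw [Dof, if_neg h4]
        omega
    · intro d _ d' _ h
      exact Dof_inj h
  have hcn2 := hcn.trans (Finset.card_union_le _ _)
  have hcn3 : (((Finset.Ioc x (x + H)).filter (fun d => Squarefree d ∧
        (∀ q ∈ Q, q.Prime → ¬ q ∣ d) ∧ ¬ (GoodE a ε d ∧ GoodAR a d))).card : ℝ) ≤
        ((Finset.Ioc x (x + H)).filter R).card +
          ((Finset.Ioc (4 * x) (4 * x + 4 * H)).filter R).card := by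
    exact_mod_cast hcn2
  have hpp : pq Q (4 * x) ≤ pq Q x := pq_anti Q (by omega)
  have hpx := pq_pos Q x
  have h5 : τ / 5 * ((4 * H : ℕ) : ℝ) * pq Q (4 * x) ≤ τ / 5 * ((4 * H : ℕ) : ℝ) * pq Q x :=
    mul_le_mul_of_nonneg_left hpp (by positivity)
  calc _ ≤ _ := hcn3
    _ ≤ τ / 5 * H * pq Q x + τ / 5 * ((4 * H : ℕ) : ℝ) * pq Q x := by linarith
    _ = _ := by push_cast; ring

/-- comparison with the product over all the primes -/
lemma pq_two (Q : Set ℕ) (X : ℕ) : pq Q X ≤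
    2 * ∏ q ∈ (Finset.Icc 2 X).filter (fun q => q.Prime ∧ q ∈ Q), (1 - 1 / (q : ℝ)) := by
  have hpos := pq_pos Q X
  have hsub : (Finset.Icc 3 X).filter (fun q => q.Prime ∧ q ∈ Q) ⊆
      (Finset.Icc 2 X).filter (fun q => q.Prime ∧ q ∈ Q) :=
    Finset.filter_subset_filter _ (Finset.Icc_subset_Icc_left (by norm_num))
  rw [← Finset.prod_sdiff hsub]
  have h2 : (1 / 2 : ℝ) ≤ ∏ q ∈ (Finset.Icc 2 X).filter (fun q => q.Prime ∧ q ∈ Q) \
      (Finset.Icc 3 X).filter (fun q => q.Prime ∧ q ∈ Q), (1 - 1 / (q : ℝ)) := by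
    have hsub2 : (Finset.Icc 2 X).filter (fun q => q.Prime ∧ q ∈ Q) \
        (Finset.Icc 3 X).filter (fun q => q.Prime ∧ q ∈ Q) ⊆ {2} := by
      intro q hq
      rw [Finset.mem_sdiff, Finset.mem_filter, Finset.mem_filter, Finset.mem_Icc,
        Finset.mem_Icc] at hq
      rw [Finset.mem_singleton]
      by_contra hne
      exact hq.2 ⟨⟨by omega, hq.1.1.2⟩, hq.1.2⟩
    have h3 : ∏ q ∈ ({2} : Finset ℕ), (1 - 1 / (q : ℝ)) = 1 / 2 := by
      rw [Finset.prod_singleton]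
      norm_num
    rw [← h3]
    apply BHch.prod_anti _ _ hsub2
    intro p hp
    rw [Finset.mem_singleton] at hp
    rw [hp]
    exact Nat.prime_two
  show pq Q X ≤ 2 * (_ * pq Q X)
  nlinarith

/-- the final theorem -/
theorem final (hSQ : Q_SQ) (hEXC : SH.AR.Q_EXCF) (hCH : P2_CH) (a θ ε τ : ℝ) (ha : 2 < a)
    (hθ2 : 1 / 2 < θ) (hkey : 1 / (2 * θ) < ee a) (hθ1 : θ ≤ 1) (hε : 0 < ε) (hτ : 0 < τ) :
    ∃ x0 : ℕ, ∀ x ≥ x0, ∀ H : ℕ, (x : ℝ) ^ θ ≤ H → H ≤ x → ∀ Q : Set ℕ,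
      (((Finset.Ioc x (x + H)).filter (fun d => Squarefree d ∧
        (∀ q ∈ Q, q.Prime → ¬ q ∣ d) ∧ ¬ (GoodE a ε d ∧ GoodAR a d))).card : ℝ) ≤
      τ * H * ∏ q ∈ (Finset.Icc 2 x).filter (fun q => q.Prime ∧ q ∈ Q), (1 - 1 / (q : ℝ)) := by
  obtain ⟨x0, hx0⟩ := radicands hSQ hEXC hCH a θ ε (τ / 2) ha hθ2 hkey hθ1 hε (by positivity)
  refine ⟨x0, fun x hx H hxH hHx Q => (hx0 x hx H hxH hHx Q).trans ?_⟩
  calc τ / 2 * H * pq Q x ≤ τ / 2 * H * (2 * ∏ q ∈ (Finset.Icc 2 x).filter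
      (fun q => q.Prime ∧ q ∈ Q), (1 - 1 / (q : ℝ))) :=
        mul_le_mul_of_nonneg_left (pq_two Q x) (by positivity)
    _ = _ := by ring

end Pool.Agent.H52.W.SH.Final
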