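import Pool.Agent.H52.W.SH.Stubs
import Pool.Agent.H52.W.CG2.V0
import Pool.Agent.H52.V.S8.H38R2.CG.TB1

/-! Project SH: V0 and T1. -/

set_option autoImplicit false

namespace Pool.Agent.H52.W.SH.V0

variable [Lam]

open Finset Filter NumberField Pool.Agent.H38R2.CG Pool.Agent.H52.W.CG2 Pool.Agent.H52.W.SH
open scoped Classical

theorem mul_eq {X T : ℕ} (hT : 1 ≤ T) : (X : ℝ) / T * T = X := by
  have : (T : ℝ) ≠ 0 := by
    have : T ≠ 0 := by omega
    exact_mod_cast this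
  field_simp

theorem floor_eq {X T : ℕ} (hT : 1 ≤ T) : ⌊(1 + (X : ℝ) / T) * T⌋₊ = T + X := by
  have h : (1 + (X : ℝ) / T) * T = ((T + X : ℕ) : ℝ) := by
    rw [add_mul, mul_eq hT]
    push_cast
    ring
  rw [h, Nat.floor_natCast]

theorem DD_eq (z r : ℕ) {X T : ℕ} (hT : 1 ≤ T) : DD z r T ((X : ℝ) / T) = DT z r X T := by
  unfold DD DT
  rw [floor_eq hT]

theorem one_d (z r X T d e : ℕ) (hr : r < Qz z) (hX : 1 ≤ X) (hd : 1 ≤ d) (he : 1 ≤ e)
    (hdc : d.Coprime (Qz z)) (hec : e.Coprime (Qz z)) :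
    |((((DT z r X T).filter (fun D => e ∣ D)).filter (fun D => d ∣ D)).card : ℝ) -
      X / Qz z * (1 / (Nat.lcm d e : ℝ))| ≤ 2 := by
  rcases Nat.eq_zero_or_pos T with h0 | hT
  · -- T = 0: use the interval (0, X]
    subst h0
    set L := Nat.lcm d e with hL
    have hL1 : 0 < L := Nat.lcm_pos hd he
    have hQ : 0 < Qz z := by omega
    have hcop : (Qz z).Coprime L := by
      rw [hL]
      exact (Nat.Coprime.coprime_dvd_left (Nat.lcm_dvd_mul d e)
        (Nat.Coprime.mul_left hdc hec)).symm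
    set v0 := (Nat.chineseRemainder hcop r 0 : ℕ) with hv0
    have hv1 : v0 ≡ r [MOD Qz z] := (Nat.chineseRemainder hcop r 0).2.1
    have hv2 : v0 ≡ 0 [MOD L] := (Nat.chineseRemainder hcop r 0).2.2
    have hset : ((DT z r X 0).filter (fun D => e ∣ D)).filter (fun D => d ∣ D) =
        (Finset.Ioc 0 X).filter (fun D => D ≡ v0 [MOD (Qz z * L)]) := by
      unfold DT
      rw [Nat.zero_add]
      ext D
      simp only [Finset.mem_filter]
      rw [← Nat.modEq_and_modEq_iff_modEq_mul hcop]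
      constructor
      · rintro ⟨⟨⟨h1, h2⟩, h3⟩, h4⟩
        refine ⟨h1, ?_, ?_⟩
        · refine Nat.ModEq.trans ?_ hv1.symm
          unfold Nat.ModEq
          rw [h2, Nat.mod_eq_of_lt hr]
        · refine Nat.ModEq.trans ?_ hv2.symm
          rw [Nat.modEq_zero_iff_dvd]
          exact Nat.lcm_dvd h4 h3
      · rintro ⟨h1, h2, h3⟩
        have h2' := h2.trans hv1
        have h3' := (Nat.modEq_zero_iff_dvd).1 (h3.trans hv2)
        refine ⟨⟨⟨h1, ?_⟩, (Nat.dvd_lcm_right d e).trans h3'⟩, (Nat.dvd_lcm_left d e).trans h3'⟩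
        unfold Nat.ModEq at h2'
        rw [h2', Nat.mod_eq_of_lt hr]
    rw [hset]
    have h1 := V0h.cntAP 0 X (Qz z * L) v0 (Nat.zero_le _) (Nat.mul_pos hQ hL1)
    have e1 : (X : ℝ) / Qz z * (1 / (L : ℝ)) = ((X : ℝ) - (0 : ℕ)) / ((Qz z * L : ℕ) : ℝ) := by
      push_cast
      rw [div_mul_div_comm, mul_one, sub_zero]
    rw [e1]
    linarith
  · have h := V0h.one_d z r T d e ((X : ℝ) / T) hr (by
      have : (0 : ℝ) < X := by exact_mod_cast hX
      have : (0 : ℝ) < T := by exact_mod_cast hT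
      positivity) hd he hdc hec
    rw [DD_eq z r hT, mul_eq hT] at h
    exact h

theorem main : P2_WT → Q_V0 := by
  intro hWT z r X T P δ C0 ρ e hr hX hδ hS he hec
  have h1 : ∀ D ∈ (DT z r X T).filter (fun D => e ∣ D), wt ρ D =
      ∑ d ∈ Finset.Icc 1 X, (if d ∣ D then ρ d else 0) := by
    intro D hD
    have hD1 : 1 ≤ D := by
      unfold DT at hD
      simp only [Finset.mem_filter, Finset.mem_Ioc] at hD
      omega
    rw [(hWT z X P δ C0 ρ hX hδ hS D hD1).2, Finset.sum_filter]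
  rw [Finset.sum_congr rfl h1, Finset.sum_comm, Finset.mul_sum, ← Finset.sum_sub_distrib]
  have h2 : ∀ d ∈ Finset.Icc 1 X,
      |(∑ D ∈ (DT z r X T).filter (fun D => e ∣ D), (if d ∣ D then ρ d else 0)) -
        X / Qz z * (ρ d / (Nat.lcm d e : ℝ))| ≤ (if ρ d ≠ 0 then 2 else 0) := by
    intro d hd
    by_cases h0 : ρ d = 0
    · simp [h0]
    · rw [if_pos h0]
      have hs := hS.supp d h0
      have e1 : (∑ D ∈ (DT z r X T).filter (fun D => e ∣ D), (if d ∣ D then ρ d else 0)) =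
          ρ d * ((((DT z r X T).filter (fun D => e ∣ D)).filter (fun D => d ∣ D)).card : ℝ) := by
        rw [← Finset.sum_filter, Finset.sum_const, nsmul_eq_mul, mul_comm]
      have e2 : (X : ℝ) / Qz z * (ρ d / (Nat.lcm d e : ℝ)) =
          ρ d * (X / Qz z * (1 / (Nat.lcm d e : ℝ))) := by ring
      rw [e1, e2, ← mul_sub, abs_mul]
      have h3 := one_d z r X T d e hr hX hs.1 he hs.2.2.2.1 hec
      calc |ρ d| * _ ≤ 1 * 2 := mul_le_mul (hS.bd d) h3 (abs_nonneg _) zero_le_one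
        _ = 2 := one_mul _
  refine (Finset.abs_sum_le_sum_abs _ _).trans ((Finset.sum_le_sum h2).trans ?_)
  rw [← Finset.sum_filter, Finset.sum_const, nsmul_eq_mul, mul_comm]
  refine mul_le_mul_of_nonneg_left ?_ (by norm_num)
  have h4 : (Finset.Icc 1 X).filter (fun d => ρ d ≠ 0) ⊆ Finset.Icc 1 ⌊(X : ℝ) ^ δ⌋₊ := by
    intro d hd
    rw [Finset.mem_filter] at hd
    have hs := hS.supp d hd.2
    rw [Finset.mem_Icc]
    exact ⟨hs.1, Nat.le_floor hs.2.1⟩
  have h5 := Finset.card_le_card h4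
  rw [Nat.card_Icc, Nat.add_sub_cancel] at h5
  calc (((Finset.Icc 1 X).filter (fun d => ρ d ≠ 0)).card : ℝ) ≤ (⌊(X : ℝ) ^ δ⌋₊ : ℝ) := by
        exact_mod_cast h5
    _ ≤ (X : ℝ) ^ δ := Nat.floor_le (by positivity)

open Pool.Agent.H38R2.CG.TB1h in
theorem main_T1 : P2_WT → P2_T1a → Q_T1 := by
  intro hWT hA z r X Y n P δ C0 ρ hr hX hXY hn _hδ0 hδ hρ
  have hY1 : 1 ≤ Y := hX.trans hXY
  have hXR : (0 : ℝ) < X := by exact_mod_cast hX
  have hYR : (0 : ℝ) < Y := by exact_mod_cast hY1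
  have hη : 0 < (X : ℝ) / Y := by positivity
  have hη1 : (X : ℝ) / Y ≤ 1 := by
    rw [div_le_one hYR]
    exact_mod_cast hXY
  have hD : ∀ D ∈ DT z r X Y, Y < D := by
    intro D hD
    unfold DT at hD
    rw [Finset.mem_filter, Finset.mem_Ioc] at hD
    exact hD.1.1
  have hw : ∀ D ∈ DT z r X Y, 0 ≤ wt ρ D ∧
      wt ρ D = ∑ d ∈ (Finset.Icc 1 X).filter (fun d => d ∣ D), ρ d := fun D hD' =>
    hWT z X P δ C0 ρ hX hδ hρ D (by have := hD D hD'; omega)
  have h0 : ∑ D ∈ DT z r X Y, wt ρ D * Rsum D n =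
      ∑ D ∈ DT z r X Y, wt ρ D * ∑ u ∈ Finset.Icc 1 (4 * n), T D n u 0 +
      2 * ∑ v ∈ Finset.Icc 1 (4 * n), ∑ D ∈ DT z r X Y,
        wt ρ D * ∑ u ∈ Finset.Icc 1 (4 * n), T D n u (v : ℤ) := by
    rw [Finset.sum_comm, Finset.mul_sum, ← Finset.sum_add_distrib]
    apply Finset.sum_congr rfl
    intro D _
    rw [Rsum_eq, mul_add, ← Finset.mul_sum]
    ring
  rw [h0]
  apply add_le_add
  · calc ∑ D ∈ DT z r X Y, wt ρ D * ∑ u ∈ Finset.Icc 1 (4 * n), T D n u 0
        ≤ ∑ D ∈ DT z r X Y, wt ρ D * (if IsSquare n then (1 : ℝ) else 0) :=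
          Finset.sum_le_sum (fun D hD' =>
            mul_le_mul_of_nonneg_left (sum_T_zero D n (4 * n)) (hw D hD').1)
      _ = if IsSquare n then ∑ D ∈ DT z r X Y, wt ρ D else 0 := by
          split_ifs <;> simp
  · apply mul_le_mul_of_nonneg_left _ (by norm_num)
    set V : ℕ := ⌊2 * √((n : ℝ) / Y)⌋₊ with hV
    have h1 : ∑ v ∈ Finset.Icc 1 (4 * n), ∑ D ∈ DT z r X Y,
        wt ρ D * ∑ u ∈ Finset.Icc 1 (4 * n), T D n u (v : ℤ) =
        ∑ v ∈ (Finset.Icc 1 (4 * n)).filter (fun v => v ≤ V), ∑ D ∈ DT z r X Y,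
        wt ρ D * ∑ u ∈ Finset.Icc 1 (4 * n), T D n u (v : ℤ) := by
      rw [Finset.sum_filter]
      apply Finset.sum_congr rfl
      intro v _
      split_ifs with h
      · rfl
      · push Not at h
        have h2 : 2 * √((n : ℝ) / Y) < v := by
          rw [hV] at h
          exact Nat.lt_of_floor_lt h
        apply Finset.sum_eq_zero
        intro D hD'
        rw [Finset.sum_eq_zero, mul_zero]
        intro u _
        exact T_large Y D n u v hY1 hn (hD D hD') h2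
    rw [h1]
    have h2 : ∑ v ∈ (Finset.Icc 1 (4 * n)).filter (fun v => v ≤ V), ∑ D ∈ DT z r X Y,
        wt ρ D * ∑ u ∈ Finset.Icc 1 (4 * n), T D n u (v : ℤ) ≤
        ∑ v ∈ Finset.Icc 1 V, ∑ D ∈ DT z r X Y,
        wt ρ D * ∑ u ∈ Finset.Icc 1 (4 * n), T D n u (v : ℤ) := by
      apply Finset.sum_le_sum_of_subset_of_nonneg
      · intro v hv
        rw [Finset.mem_filter, Finset.mem_Icc] at hv
        rw [Finset.mem_Icc]
        exact ⟨hv.1.1, hv.2⟩
      · intro v _ _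
        exact Finset.sum_nonneg (fun D hD' => mul_nonneg (hw D hD').1
          (Finset.sum_nonneg (fun u _ => T_nonneg D n u v)))
    refine h2.trans ?_
    apply Finset.sum_le_sum
    intro v hv
    rw [Finset.mem_Icc] at hv
    have h3 : ∑ D ∈ DT z r X Y, wt ρ D * ∑ u ∈ Finset.Icc 1 (4 * n), T D n u (v : ℤ) =
        ∑ d ∈ Finset.Icc 1 X, ρ d * ∑ D ∈ (DT z r X Y).filter (fun D => d ∣ D),
          ∑ u ∈ Finset.Icc 1 (4 * n), T D n u (v : ℤ) := by
      have h4 : ∀ D ∈ DT z r X Y, wt ρ D * ∑ u ∈ Finset.Icc 1 (4 * n), T D n u (v : ℤ) =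
          ∑ d ∈ Finset.Icc 1 X, if d ∣ D then
            ρ d * ∑ u ∈ Finset.Icc 1 (4 * n), T D n u (v : ℤ) else 0 := by
        intro D hD'
        rw [(hw D hD').2, Finset.sum_filter, Finset.sum_mul]
        apply Finset.sum_congr rfl
        intro d _
        split_ifs <;> simp
      rw [Finset.sum_congr rfl h4, Finset.sum_comm]
      apply Finset.sum_congr rfl
      intro d _
      rw [Finset.mul_sum, Finset.sum_filter]
    rw [h3, Finset.mul_sum, ← Finset.sum_add_distrib]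
    apply Finset.sum_le_sum
    intro d hd
    rw [Finset.mem_Icc] at hd
    by_cases hρd : ρ d = 0
    · rw [hρd]
      simp
    · have hcop := (hρ.supp d hρd).2.2.2.1
      have h5 := hA z r Y n v d ((X : ℝ) / Y) hr hη hη1 hY1 hn hv.1 hd.1 hcop
      rw [DD_eq z r hY1] at h5
      have h6 : ∑ D ∈ (DT z r X Y).filter (fun D => d ∣ D),
          ∑ u ∈ Finset.Icc 1 (4 * n), T D n u (v : ℤ) =
          ∑ D ∈ (DT z r X Y).filter (fun D => d ∣ D), ∑ u ∈ Finset.Icc 1 (4 * n),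
          (if ((u : ℤ) ^ 2 - (D : ℤ) * (v : ℤ) ^ 2 = 4 * n) then
            phi (Real.log (((u : ℝ) + v * √(D : ℝ)) / ((u : ℝ) - v * √(D : ℝ)))) else 0) := by
        apply Finset.sum_congr rfl
        intro D _
        apply Finset.sum_congr rfl
        intro u _
        unfold T
        push_cast
        rfl
      rw [← h6] at h5
      set A := ∑ D ∈ (DT z r X Y).filter (fun D => d ∣ D),
          ∑ u ∈ Finset.Icc 1 (4 * n), T D n u (v : ℤ) with hA'
      have h7 : ρ d * (A - (RR z r n v d : ℝ) * (om Y ((X : ℝ) / Y) v n / (Qz z * d))) ≤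
          |ρ d| * (RR z r n v d : ℝ) := by
        refine (le_abs_self _).trans ?_
        rw [abs_mul]
        exact mul_le_mul_of_nonneg_left h5 (abs_nonneg _)
      have h8 : omT X Y v n / Qz z * (ρ d / d * (RR z r n v d : ℝ)) =
          ρ d * ((RR z r n v d : ℝ) * (om Y ((X : ℝ) / Y) v n / (Qz z * d))) := by
        unfold omT
        have hd0 : (d : ℝ) ≠ 0 := by
          have : d ≠ 0 := by omega
          exact_mod_cast this
        by_cases hq : (Qz z : ℝ) = 0
        · rw [hq]; simp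
        · field_simp
      rw [h8]
      linarith

end Pool.Agent.H52.W.SH.V0
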