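import Pool.Agent.H52.W.SH.TMc
import Pool.Agent.H52.W.CG2.TM

/-!
# SH-TM: the near collision bound (adapted from `CG2/TM.lean`)
-/

set_option autoImplicit false

namespace Pool.Agent.H52.W.SH.TM

variable [Lam]

open Finset Filter NumberField Pool.Agent.H38R2.CG Pool.Agent.H52.W.CG2
open Pool.Agent.H52.W.CG2.TMh (sum_card cc_pos cc_le mem_PA prodS_pos yA_large prod_split VV_le
  err_small)
open Pool.Agent.H52.W.SH.TMc (eta_facts)
open scoped Classical

theorem MS_nonneg (hTB2 : P_TB2) (hJP : P2_JP) {a : ℝ} {z r X T C0 : ℕ} {ρ : ℕ → ℝ}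
    (hX : 1 ≤ X) (hXT : X ≤ T) (hρ : SWt z X (PA a X) (cc a) C0 ρ)
    {c s t : Finset ℕ} (hc : c ⊆ PA a X) (hs : s ⊆ PA a X) (ht : t ⊆ PA a X) :
    0 ≤ MS a z r X T ρ c s t := by
  obtain ⟨η, hηd, hη, hη1, -⟩ := eta_facts hX hXT
  unfold MS omT
  rw [← hηd]
  refine Finset.sum_nonneg fun v _ => ?_
  have hn : (0 : ℝ) < ((prodS c ^ 2 * (prodS s * prodS t) : ℕ) : ℝ) := by
    exact_mod_cast Nat.mul_pos (pow_pos (prodS_pos hc) 2) (Nat.mul_pos (prodS_pos hs)
      (prodS_pos ht))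
  have h1 := (hTB2 T η (hX.trans hXT) hη hη1 _ hn).2.1 v
  have h2 := hJP z X (PA a X) (cc a) C0 ρ c (prodS s * prodS t) v hρ
  positivity

/-- the number of v -/
theorem VV_le' {a : ℝ} (ha : 2 < a) {X T : ℕ} (hX : 4 ≤ X) (hXT : X ≤ T) {s t : Finset ℕ}
    (hs : (prodS s : ℝ) ≤ (X : ℝ) ^ (th a + cc a)) (ht : (prodS t : ℝ) ≤ (X : ℝ) ^ (th a + cc a)) :
    ⌊2 * √(((prodS s * prodS t : ℕ) : ℝ) / T)⌋₊ ≤ ⌊(X : ℝ) ^ (1 - cc a)⌋₊ := by
  refine le_trans (Nat.floor_le_floor ?_) (VV_le ha hX hs ht)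
  have hX0 : (0 : ℝ) < X := by
    have : 0 < X := by omega
    exact_mod_cast this
  have hXT' : (X : ℝ) ≤ T := by exact_mod_cast hXT
  gcongr

/-- one pair of sets -/
theorem pair_bound (hTB2 : P_TB2) (hT1 : Q_T1) (hT2 : P2_T2) (hJP : P2_JP) {a : ℝ} (ha : 2 < a)
    {z r X T C0 : ℕ} {ρ : ℕ → ℝ} (hr : r < Qz z)
    (hX : 4 ≤ X) (hXT : X ≤ T) (hρ : SWt z X (PA a X) (cc a) C0 ρ)
    (hP : ∀ p ∈ PA a X, p.Prime ∧ ¬ p ∣ Qz z) {s t : Finset ℕ} (hs : s ⊆ PA a X)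
    (ht : t ⊆ PA a X) (hs1 : (prodS s : ℝ) ≤ (X : ℝ) ^ (th a + cc a))
    (ht1 : (prodS t : ℝ) ≤ (X : ℝ) ^ (th a + cc a)) :
    ∑ D ∈ DT z r X T, wt ρ D * Rsum D (prodS s * prodS t) ≤
      ((if IsSquare (prodS s * prodS t) then ∑ D ∈ DT z r X T, wt ρ D else 0) +
      2 * ∑ v ∈ Finset.Icc 1 ⌊2 * √(((prodS s * prodS t : ℕ) : ℝ) / T)⌋₊,
        ∑ d ∈ Finset.Icc 1 X, |ρ d| * (RR z r (prodS s * prodS t) v d : ℝ)) +
      2 * MS a z r X T ρ (s ∩ t) (s \ t) (t \ s) := by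
  have hX1 : 1 ≤ X := by omega
  have hn1 : 1 ≤ prodS s * prodS t := Nat.mul_pos (prodS_pos hs) (prodS_pos ht)
  have hcc := cc_le ha
  have h1 := hT1 z r X T (prodS s * prodS t) (PA a X) (cc a) C0 ρ hr hX1 hXT hn1
    (cc_pos ha).le (by linarith) hρ
  rw [Finset.sum_add_distrib, mul_add] at h1
  have hic : s ∩ t ⊆ PA a X := Finset.inter_subset_left.trans hs
  have hsc : s \ t ⊆ PA a X := Finset.sdiff_subset.trans hs
  have htc : t \ s ⊆ PA a X := Finset.sdiff_subset.trans ht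
  have hd1 : Disjoint (s ∩ t) (s \ t) := (Finset.disjoint_sdiff_inter s t).symm
  have hd2 : Disjoint (s ∩ t) (t \ s) := by
    rw [Finset.inter_comm]
    exact (Finset.disjoint_sdiff_inter t s).symm
  have hd3 : Disjoint (s \ t) (t \ s) := by
    rw [Finset.disjoint_left]
    intro x hx hx2
    rw [Finset.mem_sdiff] at hx hx2
    exact hx.2 hx2.1
  have hQ : (0 : ℝ) < Qz z := by exact_mod_cast Pool.Agent.H38R2.CG.TMh.Qz_pos z
  have hn : (0 : ℝ) < ((prodS s * prodS t : ℕ) : ℝ) := by exact_mod_cast hn1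
  obtain ⟨η, hηd, hη, hη1, -⟩ := eta_facts hX1 hXT
  have hom : ∀ v : ℝ, 0 ≤ omT X T v ((prodS s * prodS t : ℕ) : ℝ) := by
    intro v
    unfold omT
    rw [← hηd]
    exact (hTB2 T η (hX1.trans hXT) hη hη1 _ hn).2.1 v
  have h2 : ∑ v ∈ Finset.Icc 1 ⌊2 * √(((prodS s * prodS t : ℕ) : ℝ) / T)⌋₊,
      omT X T v (prodS s * prodS t : ℕ) / Qz z *
        ∑ d ∈ Finset.Icc 1 X, ρ d / d * (RR z r (prodS s * prodS t) v d : ℝ) ≤
      MS a z r X T ρ (s ∩ t) (s \ t) (t \ s) := by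
    unfold MS
    have hterm : ∀ v ∈ Finset.Icc 1 ⌊2 * √(((prodS s * prodS t : ℕ) : ℝ) / T)⌋₊,
        omT X T v (prodS s * prodS t : ℕ) / Qz z *
          ∑ d ∈ Finset.Icc 1 X, ρ d / d * (RR z r (prodS s * prodS t) v d : ℝ) ≤
        omT X T v (prodS (s ∩ t) ^ 2 * (prodS (s \ t) * prodS (t \ s)) : ℕ) / Qz z *
        ((rhoQ z r (prodS (s ∩ t) ^ 2 * (prodS (s \ t) * prodS (t \ s))) v : ℝ) *
          JJ z X ρ (s ∩ t) (prodS (s \ t) * prodS (t \ s)) v) := by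
      intro v hv
      have hv1 := (Finset.mem_Icc.1 hv).1
      have h3 := hT2 z r X v (PA a X) (cc a) C0 ρ (s ∩ t) (s \ t) (t \ s) hv1 hρ hP hic hsc htc
        hd1 hd2 hd3
      rw [← prod_split] at h3 ⊢
      have h4 := hom v
      exact mul_le_mul_of_nonneg_left h3 (by positivity)
    refine (Finset.sum_le_sum hterm).trans ?_
    refine Finset.sum_le_sum_of_subset_of_nonneg
      (Finset.Icc_subset_Icc_right (VV_le' ha hX hXT hs1 ht1)) ?_
    intro v _ _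
    have h3 := hJP z X (PA a X) (cc a) C0 ρ (s ∩ t) (prodS (s \ t) * prodS (t \ s)) v hρ
    rw [← prod_split]
    have h4 := hom v
    positivity
  linarith

theorem main : P2_SZ → P2_NB → P2_COMB → P2_PAIR → P_TB2 → P2_WT → Q_T1 → P2_T2 → P2_JP →
    Q_ERR → Q_TMa → Q_TMb → Q_TMc → Q_TM := by
  intro hSZ hNB hCOMB hPAIR hTB2 _hWT hT1 hT2 hJP hERR hTMa hTMb hTMc
  intro a ha κ hκ z r hz hfr C0 hC0 ε hε
  have hQ : (0 : ℝ) < Qz z := by exact_mod_cast Pool.Agent.H38R2.CG.TMh.Qz_pos z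
  have hPi := Pool.Agent.H38R2.CG.TMh.PiR_pos z r
  obtain ⟨A1, hA1⟩ : ∃ A1 : ℝ, A1 = PiR z r / (4 * Qz z) := ⟨_, rfl⟩
  have hA1p : 0 < A1 := by
    rw [hA1]
    positivity
  obtain ⟨i0, X1, h1⟩ := err_small ha C0 (2 ^ (z + 5)) (ε * A1 / 8) (by positivity)
  obtain ⟨X2, h2⟩ := hSZ a ha
  obtain ⟨X3, h3⟩ := hNB a ha 1 one_pos
  obtain ⟨X4, h4⟩ := hERR a ha κ hκ z r hfr C0 hC0 (ε * A1 / 2) (by positivity)
  obtain ⟨X5, h5⟩ := hTMa a ha κ hκ z r hz hfr C0 hC0 (ε / 4) (by positivity)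
  obtain ⟨X6, h6⟩ := hTMb a ha κ hκ z r hz hfr C0 i0 hC0
  obtain ⟨X7, h7⟩ := hTMc a ha κ hκ z r hz hfr C0 hC0
  obtain ⟨X8, h8⟩ := yA_large ha z
  refine ⟨max (max (max X1 X2) (max X3 X4)) (max (max X5 X6) (max (max X7 X8) 4)), ?_⟩
  intro X hX T hRG ρ hρ
  simp only [ge_iff_le, max_le_iff] at hX
  obtain ⟨⟨⟨hX1, hX2⟩, hX3, hX4⟩, ⟨hX5, hX6⟩, ⟨hX7, hX8⟩, hX9⟩ := hX
  have hX0 : 1 ≤ X := by omega
  have hXT := hRG.1
  have hlog : 0 < Real.log (X : ℝ) := Real.log_pos (by exact_mod_cast (by omega : 1 < X))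
  have hG : 0 ≤ GG X ρ := le_trans (by positivity) hρ.low
  have hsq : 0 ≤ √(T : ℝ) := Real.sqrt_nonneg _
  have hP : ∀ p ∈ PA a X, p.Prime ∧ ¬ p ∣ Qz z := by
    intro p hp
    refine ⟨(mem_PA hp).1, fun hdvd => ?_⟩
    have h9 := Pool.Agent.H38R2.CG.TMh.prime_dvd_Qz hz (mem_PA hp).1 hdvd
    have h10 := (mem_PA hp).2
    have h11 := h8 X hX8
    omega
  have hsize : ∀ s ∈ SA a X, s ⊆ PA a X ∧ (prodS s : ℝ) ≤ (X : ℝ) ^ (th a + cc a) := by
    intro s hs
    have hs' := Finset.mem_powersetCard.1 hs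
    have h9 := (h2 X hX2 ∅ s (Finset.empty_subset _) hs'.1 (by
      rw [Finset.card_empty, zero_add]
      exact hs'.2)).2
    refine ⟨hs'.1, ?_⟩
    simpa [prodS] using h9
  -- numbers
  obtain ⟨n1, _, _, _, n5, _, n7, _⟩ := h3 X hX3
  have hk1 : 1 ≤ kA a X := by
    unfold kA
    omega
  have hk2 : 2 * kA a X ≤ (PA a X).card := by nlinarith
  have hk3 : kA a X ≤ (PA a X).card := by omega
  have hcard : 1 ≤ (PA a X).card := by omega
  have hcardR : (0 : ℝ) < (PA a X).card := by exact_mod_cast hcard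
  obtain ⟨u, hu⟩ : ∃ u : ℝ, u = 4 * 6 * (kA a X : ℝ) ^ 2 / (PA a X).card := ⟨_, rfl⟩
  have hu0 : 0 ≤ u := by
    rw [hu]
    positivity
  have hu1 : u ≤ 24 * (Real.log X) ^ (-((a - 2) / 2)) := by
    rw [hu, div_le_iff₀ hcardR]
    linarith
  obtain ⟨e1, e2⟩ := h1 X hX1 u hu0 hu1
  have c1 := hCOMB (PA a X).card (kA a X) 0 6 (by norm_num) hcard hk2
  have c2 := hCOMB (PA a X).card (kA a X) i0 6 (by norm_num) hcard hk2
  rw [← hu] at c1 c2
  -- swap
  have hswap : ∑ D ∈ DT z r X T, wt ρ D * SD D (SA a X) (fun _ => 1) =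
      ∑ s ∈ SA a X, ∑ t ∈ SA a X, 2 ^ ((s ∩ t).card) *
        ∑ D ∈ DT z r X T, wt ρ D * Rsum D (prodS s * prodS t) := by
    unfold SD
    simp only [Finset.mul_sum]
    rw [Finset.sum_comm]
    refine Finset.sum_congr rfl fun s _ => ?_
    rw [Finset.sum_comm]
    refine Finset.sum_congr rfl fun t _ => ?_
    refine Finset.sum_congr rfl fun D _ => ?_
    ring
  rw [hswap]
  have hpt : ∀ s ∈ SA a X, ∀ t ∈ SA a X, (2 : ℝ) ^ ((s ∩ t).card) *
        ∑ D ∈ DT z r X T, wt ρ D * Rsum D (prodS s * prodS t) ≤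
      2 ^ ((s ∩ t).card) *
        ((if IsSquare (prodS s * prodS t) then ∑ D ∈ DT z r X T, wt ρ D else 0) +
        2 * ∑ v ∈ Finset.Icc 1 ⌊2 * √(((prodS s * prodS t : ℕ) : ℝ) / T)⌋₊,
          ∑ d ∈ Finset.Icc 1 X, |ρ d| * (RR z r (prodS s * prodS t) v d : ℝ)) +
      2 ^ ((s ∩ t).card) * (2 * MS a z r X T ρ (s ∩ t) (s \ t) (t \ s)) := by
    intro s hs t ht
    rw [← mul_add]
    refine mul_le_mul_of_nonneg_left ?_ (by positivity)
    exact pair_bound hTB2 hT1 hT2 hJP ha hfr.1 hX9 hXT hρ hP (hsize s hs).1 (hsize t ht).1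
      (hsize s hs).2 (hsize t ht).2
  have hsum := Finset.sum_le_sum fun s hs => Finset.sum_le_sum fun t ht => hpt s hs t ht
  simp only [Finset.sum_add_distrib] at hsum
  refine hsum.trans ?_
  have hE := h4 X hX4 T hRG ρ hρ
  simp only [mul_add, Finset.sum_add_distrib] at hE ⊢
  -- main part
  have hM : ∑ s ∈ SA a X, ∑ t ∈ SA a X,
      (2 : ℝ) ^ ((s ∩ t).card) * (2 * MS a z r X T ρ (s ∩ t) (s \ t) (t \ s)) ≤
      2 * ((1 + ε / 4) * A1 * GG X ρ * (X / √(T : ℝ)) * (NA a X) ^ 2 +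
        GG X ρ * (X / √(T : ℝ)) * (NA a X) ^ 2 * (ε * A1 / 8) +
        GG X ρ * (X / √(T : ℝ)) * (NA a X) ^ 2 * (ε * A1 / 8)) := by
    have hp := hPAIR (PA a X) (kA a X)
      (fun c s t => (2 : ℝ) ^ c.card * (2 * MS a z r X T ρ c s t)) (by
        intro c s t hc hs ht
        have := MS_nonneg (z := z) (r := r) hTB2 hJP hX0 hXT hρ hc hs ht
        positivity)
    refine hp.trans ?_
    obtain ⟨w, hw⟩ : ∃ w : ℕ → ℝ, ∀ i, w i = 6 ^ i * (CA a X (kA a X - i)) ^ 2 :=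
      ⟨_, fun i => rfl⟩
    -- bound for each c
    have hc : ∀ c ∈ (PA a X).powerset.filter (fun c => c.card ≤ kA a X),
        ∑ s ∈ (PA a X).powersetCard (kA a X - c.card),
          ∑ t ∈ (PA a X).powersetCard (kA a X - c.card),
            (2 : ℝ) ^ c.card * (2 * MS a z r X T ρ c s t) ≤
        2 * ((if c = ∅ then (1 + ε / 4) * A1 * GG X ρ * (X / √(T : ℝ)) * (NA a X) ^ 2 else 0) +
          GG X ρ * (X / √(T : ℝ)) * 2 ^ (z + 5) *
            (if 1 ≤ c.card then w c.card else 0) +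
          GG X ρ * (X / √(T : ℝ)) * 2 ^ (z + 5) * (1 + Real.log X) ^ (2 * C0) *
            (if i0 + 1 ≤ c.card then w c.card
              else 0)) := by
      intro c hc
      rw [Finset.mem_filter, Finset.mem_powerset] at hc
      have hfac : ∑ s ∈ (PA a X).powersetCard (kA a X - c.card),
          ∑ t ∈ (PA a X).powersetCard (kA a X - c.card),
            (2 : ℝ) ^ c.card * (2 * MS a z r X T ρ c s t) =
          2 * (2 ^ c.card * ∑ s ∈ (PA a X).powersetCard (kA a X - c.card),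
          ∑ t ∈ (PA a X).powersetCard (kA a X - c.card), MS a z r X T ρ c s t) := by
        simp only [Finset.mul_sum]
        refine Finset.sum_congr rfl fun s _ => Finset.sum_congr rfl fun t _ => ?_
        ring
      rw [hfac, hw]
      refine mul_le_mul_of_nonneg_left ?_ (by norm_num)
      have hL2 : 0 ≤ (1 + Real.log (X : ℝ)) ^ (2 * C0) := by positivity
      have h6p : (6 : ℝ) ^ c.card = 2 ^ c.card * 3 ^ c.card := by
        rw [← mul_pow]
        norm_num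
      by_cases h0 : c = ∅
      · subst h0
        have h9 := h5 X hX5 T hRG ρ hρ
        simp only [Finset.card_empty, pow_zero, one_mul, Nat.sub_zero, if_true]
        rw [← hA1] at h9
        have h11 : ¬ (i0 + 1 ≤ 0) := by omega
        have h12 : ¬ ((1 : ℕ) ≤ 0) := by omega
        simp only [h11, h12, if_false, mul_zero, add_zero]
        exact h9
      · have hc1 : 1 ≤ c.card := Finset.card_pos.2 (Finset.nonempty_iff_ne_empty.2 h0)
        simp only [h0, if_false, zero_add, hc1, if_true]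
        by_cases hci : c.card ≤ i0
        · have h9 := h6 X hX6 T hRG ρ hρ c hc.1 hci
          have h10 : ¬ (i0 + 1 ≤ c.card) := by omega
          simp only [h10, if_false, mul_zero, add_zero]
          calc (2 : ℝ) ^ c.card * ∑ s ∈ (PA a X).powersetCard (kA a X - c.card),
                ∑ t ∈ (PA a X).powersetCard (kA a X - c.card), MS a z r X T ρ c s t
              ≤ 2 ^ c.card * (2 ^ (z + 5) * 3 ^ c.card * GG X ρ * (X / √(T : ℝ)) *
                (CA a X (kA a X - c.card)) ^ 2) := mul_le_mul_of_nonneg_left h9 (by positivity)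
            _ = GG X ρ * (X / √(T : ℝ)) * 2 ^ (z + 5) *
                (6 ^ c.card * (CA a X (kA a X - c.card)) ^ 2) := by
                rw [h6p]
                ring
        · have h9 := h7 X hX7 T hRG ρ hρ c hc.1 hc.2
          have h10 : i0 + 1 ≤ c.card := by omega
          simp only [h10, if_true]
          have h11 : (2 : ℝ) ^ c.card * ∑ s ∈ (PA a X).powersetCard (kA a X - c.card),
                ∑ t ∈ (PA a X).powersetCard (kA a X - c.card), MS a z r X T ρ c s t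
              ≤ GG X ρ * (X / √(T : ℝ)) * 2 ^ (z + 5) * (1 + Real.log X) ^ (2 * C0) *
                (6 ^ c.card * (CA a X (kA a X - c.card)) ^ 2) := by
            calc _ ≤ 2 ^ c.card * (2 ^ (z + 5) * 3 ^ c.card * (1 + Real.log X) ^ (2 * C0) *
                  GG X ρ * (X / √(T : ℝ)) * (CA a X (kA a X - c.card)) ^ 2) :=
                  mul_le_mul_of_nonneg_left h9 (by positivity)
              _ = _ := by
                rw [h6p]
                ring
          have h12 : 0 ≤ GG X ρ * (X / √(T : ℝ)) * 2 ^ (z + 5) *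
              (6 ^ c.card * (CA a X (kA a X - c.card)) ^ 2) := by positivity
          linarith
    refine (Finset.sum_le_sum hc).trans ?_
    rw [← Finset.mul_sum, Finset.sum_add_distrib, Finset.sum_add_distrib, ← Finset.mul_sum,
      ← Finset.mul_sum, sum_card (PA a X) (kA a X) 1 hk3 w,
      sum_card (PA a X) (kA a X) (i0 + 1) hk3 w]
    refine mul_le_mul_of_nonneg_left ?_ (by norm_num)
    have hd0 : ∑ c ∈ (PA a X).powerset.filter (fun c => c.card ≤ kA a X),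
        (if c = ∅ then (1 + ε / 4) * A1 * GG X ρ * (X / √(T : ℝ)) * (NA a X) ^ 2 else 0) =
        (1 + ε / 4) * A1 * GG X ρ * (X / √(T : ℝ)) * (NA a X) ^ 2 := by
      rw [Finset.sum_ite_eq']
      rw [if_pos]
      rw [Finset.mem_filter]
      exact ⟨Finset.empty_mem_powerset _, by simp⟩
    have hd : ∀ j, ∑ i ∈ Finset.Icc j (kA a X), ((PA a X).card.choose i : ℝ) *
        w i =
        ∑ i ∈ Finset.Icc j (kA a X), ((PA a X).card.choose i : ℝ) * 6 ^ i *
          ((PA a X).card.choose (kA a X - i) : ℝ) ^ 2 := by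
      intro j
      refine Finset.sum_congr rfl fun i _ => ?_
      rw [hw]
      simp only [CA]
      ring
    rw [hd0, hd, hd]
    have hNA : ((PA a X).card.choose (kA a X) : ℝ) = NA a X := rfl
    rw [hNA] at c1 c2
    have hB : 0 ≤ GG X ρ * (X / √(T : ℝ)) := by positivity
    have g1 : GG X ρ * (X / √(T : ℝ)) * 2 ^ (z + 5) *
        ∑ i ∈ Finset.Icc 1 (kA a X), ((PA a X).card.choose i : ℝ) * 6 ^ i *
          ((PA a X).card.choose (kA a X - i) : ℝ) ^ 2 ≤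
        GG X ρ * (X / √(T : ℝ)) * (NA a X) ^ 2 * (ε * A1 / 8) := by
      calc _ ≤ GG X ρ * (X / √(T : ℝ)) * 2 ^ (z + 5) *
            (u ^ (0 + 1) * Real.exp u * (NA a X) ^ 2) :=
            mul_le_mul_of_nonneg_left c1 (by positivity)
        _ = GG X ρ * (X / √(T : ℝ)) * (NA a X) ^ 2 *
            (2 ^ (z + 5) * (u ^ (0 + 1) * Real.exp u)) := by ring
        _ ≤ _ := mul_le_mul_of_nonneg_left e1 (by positivity)
    have g2 : GG X ρ * (X / √(T : ℝ)) * 2 ^ (z + 5) * (1 + Real.log X) ^ (2 * C0) *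
        ∑ i ∈ Finset.Icc (i0 + 1) (kA a X), ((PA a X).card.choose i : ℝ) * 6 ^ i *
          ((PA a X).card.choose (kA a X - i) : ℝ) ^ 2 ≤
        GG X ρ * (X / √(T : ℝ)) * (NA a X) ^ 2 * (ε * A1 / 8) := by
      calc _ ≤ GG X ρ * (X / √(T : ℝ)) * 2 ^ (z + 5) * (1 + Real.log X) ^ (2 * C0) *
            (u ^ (i0 + 1) * Real.exp u * (NA a X) ^ 2) :=
            mul_le_mul_of_nonneg_left c2 (by positivity)
        _ = GG X ρ * (X / √(T : ℝ)) * (NA a X) ^ 2 *
            (2 ^ (z + 5) * ((1 + Real.log X) ^ (2 * C0) * (u ^ (i0 + 1) * Real.exp u))) := by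
            ring
        _ ≤ _ := mul_le_mul_of_nonneg_left e2 (by positivity)
    linarith
  refine (add_le_add hE hM).trans ?_
  have hQ2 : PiR z r / (2 * Qz z) = 2 * A1 := by
    rw [hA1]
    field_simp
    norm_num
  rw [hQ2]
  have hpos : 0 ≤ GG X ρ * (X / √(T : ℝ)) * (NA a X) ^ 2 * (ε * A1) := by positivity
  nlinarith [hpos]

end Pool.Agent.H52.W.SH.TM
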