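import Pool.Agent.H52.W.SH.Stubs
import Pool.Agent.H52.W.CG2.ERR

/-!
# SH-ERR: the error terms and the diagonal (adapted from `CG2/ERR.lean`)
-/

set_option autoImplicit false

namespace Pool.Agent.H52.W.SH.ERR

variable [Lam]

open Finset Filter NumberField Pool.Agent.H38R2.CG Pool.Agent.H52.W.CG2
open Pool.Agent.H52.W.CG2.ERRh
open scoped Classical

theorem main : P2_SZ → P2_NB → Q_NB → P2_WT → Q_V0 → P2_R1 → P_TB3a → Q_ERR := by
  intro hSZ hNB hQNB hWT hV0 hR1 hA a ha κ hκ z r hfr C0 hC0 ε hε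
  set c := cc a with hc
  have hc0 : 0 < c := cc_pos ha
  have hc1 : c < 1 / 32 := cc_lt ha
  obtain ⟨X1, hX1⟩ := hSZ a ha
  set e' : ℝ := min (c / 2) (κ / 4) with he'
  have he0 : 0 < e' := by positivity
  have he1 : e' ≤ c / 2 := min_le_left _ _
  have he2 : e' ≤ κ / 4 := min_le_right _ _
  obtain ⟨X2, hX2⟩ := hNB a ha e' he0
  obtain ⟨X4, hX4⟩ := hQNB a ha (κ / 4) (by positivity)
  have hQ : 0 < Qz z := TB5h.Qz_pos z
  have hQ' : (0 : ℝ) < Qz z := by exact_mod_cast hQ
  have hQ1 : (1 : ℝ) ≤ Qz z := by exact_mod_cast hQ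
  obtain ⟨X3, hX3⟩ := eventually_atTop.1 ((ev_log c hc0).and ((ev_logpow c hc0 C0).and
    ((ev_const c hc0 (128 * Qz z / ε)).and ((ev_const (κ / 2) (by positivity) (6 / ε)).and
      (eventually_ge_atTop 4)))))
  refine ⟨max (max X1 X4) (max X2 X3), fun X hX T hRG ρ hS => ?_⟩
  obtain ⟨e1, e2, e3, e4, e5⟩ := hX3 X (le_trans (le_max_right _ _ |>.trans (le_max_right _ _)) hX)
  obtain ⟨-, -, h2k, -⟩ := hX2 X (le_trans (le_max_left _ _ |>.trans (le_max_right _ _)) hX)
  have hSZX := hX1 X (le_trans (le_max_left _ _ |>.trans (le_max_left _ _)) hX)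
  have hN := hX4 X (le_trans (le_max_right _ _ |>.trans (le_max_left _ _)) hX)
  obtain ⟨hXT, hTle⟩ := hRG
  have hX0 : (0 : ℝ) < X := by
    have : 0 < X := by omega
    exact_mod_cast this
  have hX1' : (1 : ℝ) ≤ X := by
    have : 1 ≤ X := by omega
    exact_mod_cast this
  have hXT' : (X : ℝ) ≤ T := by exact_mod_cast hXT
  have hT0 : (0 : ℝ) < T := hX0.trans_le hXT'
  have hsT : 0 < √(T : ℝ) := Real.sqrt_pos.2 hT0
  have h4X : (4 : ℝ) ≤ X := by exact_mod_cast e5
  have hsT2 : 2 ≤ √(T : ℝ) := by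
    rw [show (2 : ℝ) = √4 by rw [show (4 : ℝ) = 2 ^ 2 by norm_num, Real.sqrt_sq (by norm_num)]]
    exact Real.sqrt_le_sqrt (h4X.trans hXT')
  set G := GG X ρ with hG
  have hlog1 : 1 ≤ Real.log X := by
    have h4 : (4 : ℝ) ≤ X := by exact_mod_cast e5
    have h5 : Real.exp 1 ≤ X := by linarith [Real.exp_one_lt_d9]
    exact (Real.le_log_iff_exp_le hX0).2 h5
  have hGlow : 1 ≤ (X : ℝ) ^ c * G := by
    have h1 := hS.low
    have h2 : 0 < (Real.log X) ^ C0 := by positivity
    calc (1 : ℝ) = (Real.log X) ^ C0 * ((Real.log X) ^ C0)⁻¹ := (mul_inv_cancel₀ h2.ne').symm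
      _ ≤ (X : ℝ) ^ c * G := by gcongr
  have hXc : 0 < (X : ℝ) ^ c := by positivity
  have hG0 : 0 < G := by
    by_contra h
    push Not at h
    have : (X : ℝ) ^ c * G ≤ 0 := mul_nonpos_of_nonneg_of_nonpos hXc.le h
    linarith
  have hNA0 : 0 ≤ NA a X := by
    unfold NA CA
    positivity
  -- the sum over D
  set SD := ∑ D ∈ DT z r X T, wt ρ D with hSD
  have hSD0 : 0 ≤ SD := by
    refine Finset.sum_nonneg fun D hD => ?_
    refine (hWT z X (PA a X) c C0 ρ (by omega) (by linarith) hS D ?_).1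
    unfold DT at hD
    rw [Finset.mem_filter, Finset.mem_Ioc] at hD
    omega
  have hSDle : SD ≤ 3 * X * G := by
    have h1 := hV0 z r X T (PA a X) c C0 ρ 1 hfr.1 (by omega) (by linarith) hS le_rfl
      (Nat.coprime_one_left _)
    have h2 : (DT z r X T).filter (fun D => 1 ∣ D) = DT z r X T :=
      Finset.filter_true_of_mem fun _ _ => one_dvd _
    have h3 : ∑ d ∈ Finset.Icc 1 X, ρ d / (Nat.lcm d 1 : ℝ) = G := by
      rw [hG]
      unfold GG
      refine Finset.sum_congr rfl fun d _ => ?_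
      rw [Nat.lcm_one_right]
    rw [h2, h3, ← hSD] at h1
    have h4 := (abs_le.1 h1).2
    have h5 : X / Qz z * G ≤ X * G := by
      apply mul_le_mul_of_nonneg_right _ hG0.le
      rw [div_le_iff₀ hQ']
      nlinarith
    have h6 : (X : ℝ) ^ c ≤ X * G := by
      calc (X : ℝ) ^ c = (X : ℝ) ^ c * 1 := (mul_one _).symm
        _ ≤ (X : ℝ) ^ c * ((X : ℝ) ^ c * G) := by gcongr
        _ = (X : ℝ) ^ (c + c) * G := by rw [Real.rpow_add hX0]; ring
        _ ≤ (X : ℝ) ^ (1 : ℝ) * G := by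
            apply mul_le_mul_of_nonneg_right _ hG0.le
            exact Real.rpow_le_rpow_of_exponent_le hX1' (by linarith)
        _ = X * G := by rw [Real.rpow_one]
    linarith
  -- one pair
  have hprime : ∀ s ∈ SA a X, ∀ p ∈ s, p.Prime := fun s hs p hp => mem_PA ((mem_SA hs).1 hp)
  have hsize : ∀ s ∈ SA a X, (prodS s : ℝ) ≤ (X : ℝ) ^ (th a + c) := by
    intro s hs
    have h1 := (hSZX ∅ s (Finset.empty_subset _) (mem_SA hs).1 (by simp [(mem_SA hs).2])).2
    simpa [prodS] using h1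
  have hpow2 : ∀ s ∈ SA a X, ∀ t : Finset ℕ, (2 : ℝ) ^ ((s ∩ t).card) ≤ (X : ℝ) ^ (c / 2) := by
    intro s hs t
    refine le_trans ?_ (h2k.trans (Real.rpow_le_rpow_of_exponent_le hX1' he1))
    apply pow_le_pow_right₀ (by norm_num)
    rw [← (mem_SA hs).2]
    exact Finset.card_le_card Finset.inter_subset_left
  set K : ℝ := ε / 2 * (G * (X / √(T : ℝ))) with hK
  have hE : ∀ s ∈ SA a X, ∀ t ∈ SA a X, (2 : ℝ) ^ ((s ∩ t).card) *
      (2 * ∑ v ∈ Finset.Icc 1 ⌊2 * √(((prodS s * prodS t : ℕ) : ℝ) / T)⌋₊,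
        ∑ d ∈ Finset.Icc 1 X, |ρ d| * (RR z r (prodS s * prodS t) v d : ℝ)) ≤ K := by
    intro s hs t ht
    set n := prodS s * prodS t with hn
    set V := ⌊2 * √((n : ℝ) / T)⌋₊ with hV
    have hVle : (V : ℝ) ≤ 2 * ((X : ℝ) ^ (1 - 7 * c) / √(T : ℝ)) := by
      refine (Nat.floor_le (by positivity)).trans ?_
      apply mul_le_mul_of_nonneg_left _ (by norm_num)
      rw [Real.sqrt_le_left (by positivity), div_pow, Real.sq_sqrt hT0.le]
      apply div_le_div_of_nonneg_right _ hT0.le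
      rw [← Real.rpow_natCast, ← Real.rpow_mul hX0.le, hn]
      push_cast
      calc (prodS s : ℝ) * prodS t ≤ (X : ℝ) ^ (th a + c) * (X : ℝ) ^ (th a + c) :=
            mul_le_mul (hsize s hs) (hsize t ht) (Nat.cast_nonneg _) (by positivity)
        _ = (X : ℝ) ^ ((1 - 7 * c) * 2) := by
            rw [← Real.rpow_add hX0]
            congr 1
            unfold th
            rw [← hc]
            ring
    have hVX : (V : ℝ) ≤ X := by
      refine hVle.trans ?_
      have h6 : (X : ℝ) ^ (1 - 7 * c) ≤ X := by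
        calc (X : ℝ) ^ (1 - 7 * c) ≤ (X : ℝ) ^ (1 : ℝ) :=
              Real.rpow_le_rpow_of_exponent_le hX1' (by linarith)
          _ = X := Real.rpow_one _
      calc 2 * ((X : ℝ) ^ (1 - 7 * c) / √(T : ℝ)) ≤ √(T : ℝ) * ((X : ℝ) ^ (1 - 7 * c) / √(T : ℝ)) := by
            gcongr
        _ = (X : ℝ) ^ (1 - 7 * c) := by field_simp
        _ ≤ X := h6
    have hlogV : 1 + Real.log V ≤ (X : ℝ) ^ c := by
      refine le_trans ?_ e1
      rcases Nat.eq_zero_or_pos V with h0 | h0
      · rw [h0]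
        simp only [Nat.cast_zero, Real.log_zero]
        linarith
      · have := Real.log_le_log (by exact_mod_cast h0) hVX
        linarith
    have hsum : ∑ v ∈ Finset.Icc 1 V, ∑ d ∈ Finset.Icc 1 X, |ρ d| * (RR z r n v d : ℝ) ≤
        (16 * Qz z * ((X : ℝ) ^ c * (2 * ((X : ℝ) ^ (1 - 7 * c) / √(T : ℝ)) * (X : ℝ) ^ c))) *
          ((X : ℝ) ^ c * (X : ℝ) ^ c) := by
      calc _ ≤ ∑ v ∈ Finset.Icc 1 V, (rho z r n v : ℝ) * ((X : ℝ) ^ c * (X : ℝ) ^ c) := by
            refine Finset.sum_le_sum fun v hv => ?_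
            exact d_sum hR1 z r X n v (PA a X) c C0 ρ (by omega) hS s t (mem_SA hs).1
              (mem_SA ht).1 (fun p hp => mem_PA hp) hn (Finset.mem_Icc.1 hv).1
        _ = (∑ v ∈ Finset.Icc 1 V, (rho z r n v : ℝ)) * ((X : ℝ) ^ c * (X : ℝ) ^ c) := by
            rw [Finset.sum_mul]
        _ ≤ _ := by
            apply mul_le_mul_of_nonneg_right _ (by positivity)
            refine (v_sum hA z r s t (hprime s hs) (hprime t ht) V).trans ?_
            have h4k : (4 : ℝ) ^ ((s ∩ t).card) ≤ (X : ℝ) ^ c := by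
              have h1 : (4 : ℝ) ^ ((s ∩ t).card) =
                  (2 : ℝ) ^ ((s ∩ t).card) * (2 : ℝ) ^ ((s ∩ t).card) := by
                rw [← mul_pow]
                norm_num
              rw [h1]
              calc _ ≤ (X : ℝ) ^ (c / 2) * (X : ℝ) ^ (c / 2) := by
                    have := hpow2 s hs t
                    gcongr
                _ = (X : ℝ) ^ c := by
                    rw [← Real.rpow_add hX0]
                    congr 1
                    ring
            have hlV0 : 0 ≤ 1 + Real.log V := by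
              have := Real.log_natCast_nonneg V
              linarith
            gcongr
    have hfin : 128 * (Qz z : ℝ) ≤ ε * (X : ℝ) ^ c := by
      rw [div_le_iff₀ hε] at e3
      linarith
    calc (2 : ℝ) ^ ((s ∩ t).card) * (2 * ∑ v ∈ Finset.Icc 1 V, ∑ d ∈ Finset.Icc 1 X,
          |ρ d| * (RR z r n v d : ℝ))
        ≤ (X : ℝ) ^ (c / 2) * (2 * ((16 * Qz z * ((X : ℝ) ^ c * (2 * ((X : ℝ) ^ (1 - 7 * c) /
          √(T : ℝ)) * (X : ℝ) ^ c))) * ((X : ℝ) ^ c * (X : ℝ) ^ c))) := by
          have := hpow2 s hs t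
          have h0 : 0 ≤ ∑ v ∈ Finset.Icc 1 V, ∑ d ∈ Finset.Icc 1 X,
              |ρ d| * (RR z r n v d : ℝ) :=
            Finset.sum_nonneg fun v _ => Finset.sum_nonneg fun d _ => by positivity
          gcongr
      _ = 64 * Qz z * (X : ℝ) ^ (c / 2 + c + (1 - 7 * c) + c + c + c) / √(T : ℝ) := by
          rw [Real.rpow_add hX0, Real.rpow_add hX0, Real.rpow_add hX0, Real.rpow_add hX0,
            Real.rpow_add hX0]
          ring
      _ ≤ 64 * Qz z * (X : ℝ) ^ (1 - c - c) / √(T : ℝ) := by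
          apply div_le_div_of_nonneg_right _ hsT.le
          apply mul_le_mul_of_nonneg_left _ (by positivity)
          exact Real.rpow_le_rpow_of_exponent_le hX1' (by linarith)
      _ ≤ (ε * (X : ℝ) ^ c / 2) * (X : ℝ) ^ (1 - c - c) * ((X : ℝ) ^ c * G) / √(T : ℝ) := by
          have h1 : 64 * (Qz z : ℝ) ≤ ε * (X : ℝ) ^ c / 2 := by linarith
          apply div_le_div_of_nonneg_right _ hsT.le
          calc 64 * (Qz z : ℝ) * (X : ℝ) ^ (1 - c - c)
              ≤ (ε * (X : ℝ) ^ c / 2) * (X : ℝ) ^ (1 - c - c) := by gcongr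
            _ = (ε * (X : ℝ) ^ c / 2) * (X : ℝ) ^ (1 - c - c) * 1 := (mul_one _).symm
            _ ≤ _ := by gcongr
      _ = K := by
          rw [hK]
          have h1 : (X : ℝ) = (X : ℝ) ^ (1 - c - c) * (X : ℝ) ^ c * (X : ℝ) ^ c := by
            rw [← Real.rpow_add hX0, ← Real.rpow_add hX0]
            conv_lhs => rw [← Real.rpow_one (X : ℝ)]
            congr 1
            ring
          have h2 : ε / 2 * (G * ((X : ℝ) / √(T : ℝ))) = ε / 2 * (G * (((X : ℝ) ^ (1 - c - c) *
              (X : ℝ) ^ c * (X : ℝ) ^ c) / √(T : ℝ))) := by rw [← h1]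
          rw [h2]
          ring
  have hDg : ∀ s ∈ SA a X, ∀ t ∈ SA a X, (2 : ℝ) ^ ((s ∩ t).card) *
      (if IsSquare (prodS s * prodS t) then SD else 0) ≤
      if s = t then (X : ℝ) ^ e' * (3 * X * G) else 0 := by
    intro s hs t ht
    by_cases hst : s = t
    · rw [if_pos hst]
      have h1 : (if IsSquare (prodS s * prodS t) then SD else 0) ≤ 3 * X * G := by
        split_ifs
        · exact hSDle
        · positivity
      have h2 : (2 : ℝ) ^ ((s ∩ t).card) ≤ (X : ℝ) ^ e' := by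
        refine le_trans ?_ h2k
        apply pow_le_pow_right₀ (by norm_num)
        rw [← (mem_SA hs).2]
        exact Finset.card_le_card Finset.inter_subset_left
      have h3 : 0 ≤ (if IsSquare (prodS s * prodS t) then SD else 0) := by
        split_ifs
        · exact hSD0
        · exact le_rfl
      exact mul_le_mul h2 h1 h3 (by positivity)
    · have hns : ¬ IsSquare (prodS s * prodS t) := fun hsq =>
        hst (isSquare_imp_eq (hprime s hs) (hprime t ht) hsq)
      rw [if_neg hns, if_neg hst, mul_zero]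
  have hcard : ((SA a X).card : ℝ) = NA a X := by
    unfold SA NA CA
    rw [Finset.card_powersetCard]
  calc _ ≤ ∑ s ∈ SA a X, ∑ t ∈ SA a X,
        ((if s = t then (X : ℝ) ^ e' * (3 * X * G) else 0) + K) := by
        refine Finset.sum_le_sum fun s hs => Finset.sum_le_sum fun t ht => ?_
        rw [mul_add]
        exact add_le_add (hDg s hs t ht) (hE s hs t ht)
    _ = NA a X * ((X : ℝ) ^ e' * (3 * X * G)) + (NA a X) ^ 2 * K := by
        simp_rw [Finset.sum_add_distrib]
        congr 1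
        · rw [← hcard, ← nsmul_eq_mul, ← Finset.sum_const]
          refine Finset.sum_congr rfl fun s hs => ?_
          rw [Finset.sum_ite_eq, if_pos hs]
        · rw [Finset.sum_const, Finset.sum_const, nsmul_eq_mul, nsmul_eq_mul, hcard]
          ring
    _ ≤ NA a X * (ε / 2 * (G * (X / √(T : ℝ))) * NA a X) + (NA a X) ^ 2 * K := by
        refine add_le_add ?_ le_rfl
        apply mul_le_mul_of_nonneg_left _ hNA0
        have h6 : 6 ≤ ε * (X : ℝ) ^ (κ / 2) := by
          rw [div_le_iff₀ hε] at e4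
          linarith
        have h7 : (X : ℝ) ^ e' ≤ (X : ℝ) ^ (κ / 4) :=
          Real.rpow_le_rpow_of_exponent_le hX1' he2
        have h8 : 3 * ((X : ℝ) ^ e' * √(T : ℝ)) ≤ ε / 2 * NA a X := by
          calc 3 * ((X : ℝ) ^ e' * √(T : ℝ))
              ≤ 3 * ((X : ℝ) ^ (κ / 4) * (X : ℝ) ^ (ee a - κ)) := by gcongr
            _ ≤ (ε * (X : ℝ) ^ (κ / 2) / 2) *
                ((X : ℝ) ^ (κ / 4) * (X : ℝ) ^ (ee a - κ)) := by
                gcongr
                linarith
            _ = ε / 2 * (X : ℝ) ^ (κ / 2 + κ / 4 + (ee a - κ)) := by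
                rw [Real.rpow_add hX0, Real.rpow_add hX0]
                ring
            _ = ε / 2 * (X : ℝ) ^ (ee a - κ / 4) := by
                congr 2
                ring
            _ ≤ ε / 2 * NA a X := by gcongr
        calc (X : ℝ) ^ e' * (3 * X * G) =
              G * (X / √(T : ℝ)) * (3 * ((X : ℝ) ^ e' * √(T : ℝ))) := by
              field_simp
          _ ≤ G * (X / √(T : ℝ)) * (ε / 2 * NA a X) :=
              mul_le_mul_of_nonneg_left h8 (by positivity)
          _ = ε / 2 * (G * (X / √(T : ℝ))) * NA a X := by ring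
    _ = ε * G * (X / √(T : ℝ)) * (NA a X) ^ 2 := by
        rw [hK]
        ring

end Pool.Agent.H52.W.SH.ERR
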