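import Pool.Agent.H52.W.SH.Stubs
import Pool.Agent.H52.W.CG2.LM

/-!
# SH-LM: the weighted first moment of L(1, chi_D) in short intervals
-/

set_option autoImplicit false

namespace Pool.Agent.H52.W.SH.LM

variable [Lam]

open Finset Filter NumberField Pool.Agent.H38R2.CG Pool.Agent.H52.W.CG2
open Pool.Agent.H38R2.CG.LMh Pool.Agent.H52.W.CG2.LMh
open scoped Classical

theorem main : P_N3a → P2_WT → Q_V0 → Q_V1 → Q_LM := by
  intro hN3a hWT hV0 hV1 a ha κ hκ z r hz hfr C0 hC0 ε hε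
  obtain ⟨C, hC, hN3⟩ := hN3a
  obtain ⟨X1, hX1⟩ := hV1 a ha κ hκ z r hfr C0
  have hQ : (0 : ℝ) < Qz z := by exact_mod_cast Qz_pos z
  have hPi := PiR_pos z r
  have hz0 : (0 : ℝ) < z := by
    have : 0 < z := by omega
    exact_mod_cast this
  have ha1 : 0 < a - 1 := by linarith
  obtain ⟨δ, hδ⟩ : ∃ δ, δ = cc a := ⟨_, rfl⟩
  have hδ0 : 0 < δ := by
    rw [hδ]
    exact ccpos (by assumption)
  have hδ1 : δ < 1 / 32 := by
    rw [hδ]
    have h32 := cclt (a := a) (by assumption)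
    linarith
  have hth34 : 3 / 4 < th a := th_ge ha
  have hth1 : th a < 1 := by
    unfold th
    linarith
  have hth : th a ≤ th a + 2 * cc a := by linarith
  obtain ⟨s, hs⟩ : ∃ s, s = th a / a + κ := ⟨_, rfl⟩
  have hs0 : 0 < s := by
    rw [hs]
    have : 0 < th a / a := div_pos (by linarith) (by linarith)
    linarith
  set A : ℝ := (1 + 1 / z) / PiR z r with hA
  have hApos : 0 < A := by positivity
  have hcast : Tendsto (fun X : ℕ => (X : ℝ)) atTop atTop := tendsto_natCast_atTop_atTop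
  -- the error functions
  have he0 : Tendsto (fun X : ℕ => Qz z * ((Real.log X) ^ C0 / (X : ℝ) ^ δ +
      (Real.log X) ^ (C0 + 1) / (X : ℝ) ^ δ)) atTop (nhds 0) := by
    have := ((log_pow_lim C0 δ hδ0).add (log_pow_lim (C0 + 1) δ hδ0)).const_mul ((Qz z : ℝ))
    rwa [add_zero, mul_zero] at this
  have he1 : Tendsto (fun X : ℕ => 2 * (Qz z : ℝ) * ((Real.log X) ^ C0 / (X : ℝ) ^ (1 - δ))) atTop
      (nhds 0) := by
    have := (log_pow_lim C0 (1 - δ) (by linarith)).const_mul (2 * (Qz z : ℝ))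
    rwa [mul_zero] at this
  have he2 : Tendsto (fun X : ℕ => C * (2 * √2) * (Real.log 2 * ((Real.log X) ^ 0 /
      (X : ℝ) ^ s) + 2 * ((Real.log X) ^ 1 / (X : ℝ) ^ s))) atTop (nhds 0) := by
    have := (((log_pow_lim 0 s hs0).const_mul (Real.log 2)).add
      ((log_pow_lim 1 s hs0).const_mul 2)).const_mul (C * (2 * √2))
    rwa [mul_zero, mul_zero, add_zero, mul_zero] at this
  have hfl : Tendsto (fun X : ℕ => ⌊(X : ℝ) ^ (th a)⌋₊) atTop atTop :=
    tendsto_nat_floor_atTop.comp ((tendsto_rpow_atTop (by linarith)).comp hcast)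
  have he3 := (Er_tendsto z r).comp hfl
  have hlim : Tendsto (fun X : ℕ => Qz z * ((Real.log X) ^ C0 / (X : ℝ) ^ δ +
      (Real.log X) ^ (C0 + 1) / (X : ℝ) ^ δ) +
      (1 + 2 * (Qz z : ℝ) * ((Real.log X) ^ C0 / (X : ℝ) ^ (1 - δ))) *
      (A + Er z r ⌊(X : ℝ) ^ (th a)⌋₊ + C * (2 * √2) * (Real.log 2 * ((Real.log X) ^ 0 /
      (X : ℝ) ^ s) + 2 * ((Real.log X) ^ 1 / (X : ℝ) ^ s)))) atTop
      (nhds (0 + (1 + 0) * (A + 0 + 0))) :=
    he0.add ((he1.const_add _).mul ((he3.const_add A).add he2))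
  have hlt : 0 + (1 + 0) * (A + 0 + 0) < (1 + ε) * (1 + 4 / z) / PiR z r := by
    have h1 : A ≤ (1 + 4 / z) / PiR z r := by
      rw [hA]
      gcongr
      norm_num
    have h3 : 0 < (1 + 4 / z) / PiR z r := by positivity
    calc 0 + (1 + 0) * (A + 0 + 0) = A := by ring
      _ ≤ (1 + 4 / z) / PiR z r := h1
      _ < (1 + ε) * ((1 + 4 / z) / PiR z r) := by nlinarith
      _ = _ := by ring
  have hev := (hlim.eventually (gt_mem_nhds hlt)).and (eventually_ge_atTop (max X1 3))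
  obtain ⟨X0, hX0⟩ := eventually_atTop.mp hev
  refine ⟨X0, fun X hX T hRG ρ hρ => ?_⟩
  obtain ⟨hbr, hXm⟩ := hX0 X hX
  have hX1' : X1 ≤ X := le_trans (le_max_left _ _) hXm
  have hX3 : 3 ≤ X := le_trans (le_max_right _ _) hXm
  have hXr : (3 : ℝ) ≤ X := by exact_mod_cast hX3
  have hX0' : (0 : ℝ) < X := by linarith
  have hXT : (X : ℝ) ≤ T := by exact_mod_cast hRG.1
  have hT0' : (0 : ℝ) < T := by linarith
  have hlogX : 1 ≤ Real.log X := by
    have h1 : Real.exp 1 ≤ X := by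
      have := Real.exp_one_lt_d9
      linarith
    calc (1:ℝ) = Real.log (Real.exp 1) := (Real.log_exp 1).symm
      _ ≤ Real.log X := Real.log_le_log (Real.exp_pos 1) h1
  set N := ⌊(X : ℝ) ^ (th a)⌋₊ with hN
  have hXp1 : (1 : ℝ) ≤ (X : ℝ) ^ (th a) :=
    Real.one_le_rpow (by linarith) (by linarith)
  have hN1 : 1 ≤ N := by
    rw [hN]
    exact Nat.le_floor (by exact_mod_cast hXp1)
  have hNle : (N : ℝ) ≤ (X : ℝ) ^ (th a) := Nat.floor_le (by positivity)
  have hNge : (X : ℝ) ^ (th a) / 2 ≤ N := by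
    have h1 : (X : ℝ) ^ (th a) < N + 1 := Nat.lt_floor_add_one _
    have h2 : (1 : ℝ) ≤ N := by exact_mod_cast hN1
    linarith
  have hNpos : (0 : ℝ) < N := by exact_mod_cast hN1
  -- the weights
  have hw : ∀ D, 1 ≤ D → 0 ≤ wt ρ D := fun D hD =>
    (hWT z X (PA a X) (cc a) C0 ρ (by omega) (by rw [← hδ]; linarith) hρ D hD).1
  have hDpos1 : ∀ D ∈ DT z r X T, 1 ≤ D := by
    intro D hD
    simp only [DT, Finset.mem_filter, Finset.mem_Ioc] at hD
    omega
  have hFD : FT z r X T ⊆ DT z r X T := Finset.filter_subset _ _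
  have hwF : ∀ D ∈ FT z r X T, 0 ≤ wt ρ D := fun D hD => hw D (hDpos1 D (hFD hD))
  have hFmod : ∀ D ∈ FT z r X T, D % Qz z = r := by
    intro D hD
    simp only [FT, DT, Finset.mem_filter] at hD
    exact hD.1.2
  obtain ⟨W, hW⟩ : ∃ W, W = ∑ D ∈ FT z r X T, wt ρ D := ⟨_, rfl⟩
  have hW0 : 0 ≤ W := by rw [hW]; exact Finset.sum_nonneg hwF
  have hWWe : WS z X ρ = X / Qz z * GG X ρ := rfl
  have hTle : W ≤ WS z X ρ + 2 * (X : ℝ) ^ δ := by
    have h1 : W ≤ ∑ D ∈ DT z r X T, wt ρ D := by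
      rw [hW]
      exact Finset.sum_le_sum_of_subset_of_nonneg hFD fun D hD _ => hw D (hDpos1 D hD)
    have h2 := (abs_le.mp (hV0 z r X T (PA a X) (cc a) C0 ρ 1 hfr.1 (by omega)
      (by rw [← hδ]; linarith) hρ le_rfl (Nat.coprime_one_left _))).2
    have h3 : (DT z r X T).filter (fun D => 1 ∣ D) = DT z r X T :=
      Finset.filter_true_of_mem fun D _ => one_dvd D
    have h4 : ∑ d ∈ Finset.Icc 1 X, ρ d / (Nat.lcm d 1 : ℝ) = GG X ρ := by
      unfold GG
      refine Finset.sum_congr rfl fun d _ => ?_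
      rw [Nat.lcm_one_right]
    rw [h3, h4, ← hWWe, ← hδ] at h2
    linarith
  have hlogpos : 0 < (Real.log X) ^ C0 := pow_pos (by linarith) _
  have hWWlow : X / Qz z * ((Real.log X) ^ C0)⁻¹ ≤ WS z X ρ := by
    rw [hWWe]
    exact mul_le_mul_of_nonneg_left hρ.low (by positivity)
  have hWWpos : 0 < WS z X ρ := lt_of_lt_of_le (by positivity) hWWlow
  have hmain := main_w z r hz (FT z r X T) hFmod (wt ρ) hwF N ((X : ℝ) ^ (1 - δ)) (by positivity)
    (fun m hm1 hmN hmc hms => by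
      rw [hδ]
      refine (hX1 X hX1' T hRG ρ hρ m hm1 hmc hms).2 ?_
      have h1 : (m : ℝ) ≤ N := by exact_mod_cast hmN
      refine (h1.trans hNle).trans ?_
      exact Real.rpow_le_rpow_of_exponent_le (by linarith) hth)
  rw [← hW] at hmain
  -- approximation of Lone
  obtain ⟨E2, hE2⟩ : ∃ E2, E2 = C * (2 * √2) * (Real.log 2 * ((Real.log X) ^ 0 /
      (X : ℝ) ^ s) + 2 * ((Real.log X) ^ 1 / (X : ℝ) ^ s)) := ⟨_, rfl⟩
  have hlog2 : 0 ≤ Real.log 2 := Real.log_nonneg (by norm_num)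
  have hE2nn : 0 ≤ E2 := by
    rw [hE2]
    positivity
  -- the size of `T`
  have hTsq : √(T : ℝ) ≤ (X : ℝ) ^ (th a - s) := by
    have h1 := hRG.2
    have h2 : ee a - κ = th a - s := by rw [hs, ee_eq ha]; ring
    rwa [h2] at h1
  have hTX2 : (T : ℝ) ≤ (X : ℝ) ^ 2 := by
    have h1 : √(T : ℝ) ≤ X := by
      refine hTsq.trans ?_
      calc (X : ℝ) ^ (th a - s) ≤ (X : ℝ) ^ (1 : ℝ) :=
            Real.rpow_le_rpow_of_exponent_le (by linarith) (by linarith)
        _ = X := Real.rpow_one _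
    calc (T : ℝ) = √(T : ℝ) ^ 2 := (Real.sq_sqrt hT0'.le).symm
      _ ≤ (X : ℝ) ^ 2 := pow_le_pow_left₀ (Real.sqrt_nonneg _) h1 2
  have hLone : ∀ D ∈ FT z r X T, Lone D ≤ ∑ n ∈ Finset.Icc 1 N, (chi D n : ℝ) / n + E2 := by
    intro D hD
    have hD' := hD
    simp only [FT, DT, Finset.mem_filter, Finset.mem_Ioc] at hD'
    obtain ⟨⟨⟨hD1, hD2⟩, -⟩, hDf⟩ := hD'
    have hDle : (D : ℝ) ≤ 2 * T := by
      have h1 : (D : ℝ) ≤ T + X := by exact_mod_cast hD2
      linarith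
    have hDpos : (0 : ℝ) < D := by
      have : 0 < D := by omega
      exact_mod_cast this
    have h := (abs_le.mp (hN3 D hDf N hN1)).2
    have h2 : C * √(D : ℝ) * Real.log D / N ≤ E2 := by
      have h3 : √(D : ℝ) ≤ √2 * (X : ℝ) ^ (th a - s) := by
        calc √(D : ℝ) ≤ √(2 * T) := Real.sqrt_le_sqrt hDle
          _ = √2 * √(T : ℝ) := Real.sqrt_mul (by norm_num) _
          _ ≤ √2 * (X : ℝ) ^ (th a - s) := mul_le_mul_of_nonneg_left hTsq (Real.sqrt_nonneg _)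
      have h4 : Real.log D ≤ Real.log 2 + 2 * Real.log X := by
        have h5 : Real.log D ≤ Real.log (2 * (X : ℝ) ^ 2) :=
          Real.log_le_log hDpos (by linarith)
        rw [Real.log_mul (by norm_num) (by positivity), Real.log_pow] at h5
        push_cast at h5
        exact h5
      have h5 : 0 ≤ Real.log 2 + 2 * Real.log X := by linarith
      have hlogD : 0 ≤ Real.log D := Real.log_natCast_nonneg D
      have h6 : (X : ℝ) ^ (th a) = (X : ℝ) ^ (th a - s) * (X : ℝ) ^ s := by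
        rw [← Real.rpow_add hX0']
        congr 1
        ring
      have h7 : (0 : ℝ) < (X : ℝ) ^ (th a - s) := by positivity
      have h8 : (0 : ℝ) < (X : ℝ) ^ s := by positivity
      calc C * √(D : ℝ) * Real.log D / N
          ≤ C * (√2 * (X : ℝ) ^ (th a - s)) * (Real.log 2 + 2 * Real.log X) /
            ((X : ℝ) ^ (th a) / 2) := by
            gcongr
        _ = _ := by
            rw [h6, hE2]
            field_simp
    linarith
  have hsum1 : ∑ D ∈ FT z r X T, wt ρ D * Lone D ≤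
      ∑ D ∈ FT z r X T, wt ρ D * ∑ n ∈ Finset.Icc 1 N, (chi D n : ℝ) / n + W * E2 := by
    calc ∑ D ∈ FT z r X T, wt ρ D * Lone D
        ≤ ∑ D ∈ FT z r X T, wt ρ D * (∑ n ∈ Finset.Icc 1 N, (chi D n : ℝ) / n + E2) :=
          Finset.sum_le_sum fun D hD => mul_le_mul_of_nonneg_left (hLone D hD) (hwF D hD)
      _ = _ := by
          rw [hW, Finset.sum_mul, ← Finset.sum_add_distrib]
          refine Finset.sum_congr rfl fun D _ => ?_
          ring
  have hEr := Er_nonneg z r N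
  have hharm : ∑ n ∈ Finset.Icc 1 N, (1 : ℝ) / n ≤ 1 + Real.log X := by
    refine (sum_inv_le N).trans ?_
    have hNX : (N : ℝ) ≤ X := by
      refine hNle.trans ?_
      calc (X : ℝ) ^ (th a) ≤ (X : ℝ) ^ (1 : ℝ) :=
            Real.rpow_le_rpow_of_exponent_le (by linarith) hth1.le
        _ = X := Real.rpow_one _
    have := Real.log_le_log hNpos hNX
    linarith
  -- comparison with WS
  have hinvW : 1 ≤ WS z X ρ * (Qz z * ((Real.log X) ^ C0 / X)) := by
    calc (1:ℝ) = X / Qz z * ((Real.log X) ^ C0)⁻¹ * (Qz z * ((Real.log X) ^ C0 / X)) := by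
          field_simp
      _ ≤ _ := mul_le_mul_of_nonneg_right hWWlow (by positivity)
  have hp1 : (X : ℝ) ^ (1 - δ) = X / (X : ℝ) ^ δ := by
    rw [Real.rpow_sub hX0', Real.rpow_one]
  have hp2 : (X : ℝ) ^ δ = X / (X : ℝ) ^ (1 - δ) := by
    rw [hp1]
    field_simp
  have hXδ : (0:ℝ) < (X : ℝ) ^ δ := by positivity
  have hX1δ : (0:ℝ) < (X : ℝ) ^ (1 - δ) := by positivity
  have ht1 : (X : ℝ) ^ (1 - δ) * (1 + Real.log X) ≤ WS z X ρ *
      (Qz z * ((Real.log X) ^ C0 / (X : ℝ) ^ δ + (Real.log X) ^ (C0 + 1) / (X : ℝ) ^ δ)) := by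
    calc (X : ℝ) ^ (1 - δ) * (1 + Real.log X)
        = 1 * ((X : ℝ) ^ (1 - δ) * (1 + Real.log X)) := (one_mul _).symm
      _ ≤ WS z X ρ * (Qz z * ((Real.log X) ^ C0 / X)) *
          ((X : ℝ) ^ (1 - δ) * (1 + Real.log X)) :=
          mul_le_mul_of_nonneg_right hinvW (by positivity)
      _ = _ := by
          rw [hp1]
          field_simp
          ring
  have ht2 : 2 * (X : ℝ) ^ δ ≤ WS z X ρ *
      (2 * (Qz z : ℝ) * ((Real.log X) ^ C0 / (X : ℝ) ^ (1 - δ))) := by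
    calc 2 * (X : ℝ) ^ δ = 1 * (2 * (X : ℝ) ^ δ) := (one_mul _).symm
      _ ≤ WS z X ρ * (Qz z * ((Real.log X) ^ C0 / X)) * (2 * (X : ℝ) ^ δ) :=
          mul_le_mul_of_nonneg_right hinvW (by positivity)
      _ = _ := by
          rw [hp1]
          field_simp
  have hT2 : W ≤ WS z X ρ * (1 + 2 * (Qz z : ℝ) * ((Real.log X) ^ C0 / (X : ℝ) ^ (1 - δ))) := by
    rw [mul_add, mul_one]
    linarith
  calc ∑ D ∈ FT z r X T, wt ρ D * Lone D
      ≤ (X : ℝ) ^ (1 - δ) * ∑ n ∈ Finset.Icc 1 N, (1 : ℝ) / n + W * (A + Er z r N) + W * E2 := by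
        linarith
    _ = (X : ℝ) ^ (1 - δ) * ∑ n ∈ Finset.Icc 1 N, (1 : ℝ) / n + W * (A + Er z r N + E2) := by ring
    _ ≤ (X : ℝ) ^ (1 - δ) * (1 + Real.log X) +
        WS z X ρ * (1 + 2 * (Qz z : ℝ) * ((Real.log X) ^ C0 / (X : ℝ) ^ (1 - δ))) *
          (A + Er z r N + E2) := by gcongr
    _ ≤ WS z X ρ * (Qz z * ((Real.log X) ^ C0 / (X : ℝ) ^ δ +
          (Real.log X) ^ (C0 + 1) / (X : ℝ) ^ δ)) +
        WS z X ρ * (1 + 2 * (Qz z : ℝ) * ((Real.log X) ^ C0 / (X : ℝ) ^ (1 - δ))) *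
          (A + Er z r N + E2) := by gcongr
    _ = WS z X ρ * (Qz z * ((Real.log X) ^ C0 / (X : ℝ) ^ δ +
          (Real.log X) ^ (C0 + 1) / (X : ℝ) ^ δ) +
        (1 + 2 * (Qz z : ℝ) * ((Real.log X) ^ C0 / (X : ℝ) ^ (1 - δ))) *
          (A + Er z r N + E2)) := by ring
    _ ≤ WS z X ρ * ((1 + ε) * (1 + 4 / z) / PiR z r) := by
        rw [hE2]
        exact mul_le_mul_of_nonneg_left hbr.le hWWpos.le
    _ = (1 + ε) * (1 + 4 / z) * WS z X ρ / PiR z r := by ring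

end Pool.Agent.H52.W.SH.LM
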