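import Pool.Agent.H52.W.SH.Stubs
import Pool.Agent.H52.W.CG2.MLOW

/-!
# MLOW: enough ideals for almost all D of a short interval, in the weighted sense

Adapted from `CG2/MLOW.lean`.
-/

set_option autoImplicit false

namespace Pool.Agent.H52.W.SH.MLOW

variable [Lam]

open Finset Filter NumberField Pool.Agent.H38R2.CG Pool.Agent.H52.W.CG2
open scoped Classical

open Pool.Agent.H38R2.CG.MLOWh Pool.Agent.H52.W.CG2.MLOWh

lemma core (hNB : P2_NB) (hWT : P2_WT) (hV0 : Q_V0) (hV1 : Q_V1)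
    (a : ℝ) (ha : 2 < a) (κ : ℝ) (hκ : 0 < κ) (z r : ℕ) (hF : FundRes z r)
    (C0 : ℕ) (ε : ℝ) (hε : 0 < ε) (hε1 : ε ≤ 1) : ∀ᶠ X : ℕ in atTop, ∀ T : ℕ, RG a κ X T →
    ∀ ρ : ℕ → ℝ,
    SWt z X (PA a X) (cc a) C0 ρ →
    ∑ D ∈ (DT z r X T).filter (fun D => MD D (SA a X) (fun _ => 1) < (1 - ε) * NA a X), wt ρ D ≤
      ε * WS z X ρ := by
  obtain ⟨hc0, hc1⟩ := cc_bounds a ha
  have hr : r < Qz z := hF.1
  obtain ⟨X1, hX1⟩ := hV1 a ha κ hκ z r hF C0
  filter_upwards [facts hNB a ha z r hr 1 one_pos C0 ε hε, eventually_ge_atTop X1] with X hX hXX1 T hRG ρ hρ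
  obtain ⟨hXT, hTX⟩ := hRG
  obtain ⟨hX3, hyz, hy2, hk32, hk4, hy4, hW⟩ := hX
  have hQ : 0 < Qz z := lt_of_le_of_lt (Nat.zero_le _) hr
  have hQR : (0 : ℝ) < Qz z := by exact_mod_cast hQ
  set L := Real.log (X : ℝ) with hLdef
  set y := yA a X with hy
  set k := kA a X with hk
  set P := PA a X with hPdef
  have hk1' : 1 ≤ k := by rw [hk]; unfold kA; omega
  have hk1 : (1 : ℝ) ≤ k := by exact_mod_cast hk1'
  have hmem : ∀ p ∈ P, p.Prime ∧ y < p ∧ p ≤ 2 * y := by
    intro p hp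
    simp only [hPdef, PA, PP, Finset.mem_filter, Finset.mem_Ioc] at hp
    exact ⟨hp.2, hp.1.1, hp.1.2⟩
  have hnd : ∀ p ∈ P, ¬ p ∣ Qz z := by
    intro p hp hdvd
    obtain ⟨hpp, hpy, _⟩ := hmem p hp
    unfold Qz at hdvd
    rcases (Nat.Prime.dvd_mul hpp).1 hdvd with h | h
    · have h2 : p ∣ 2 := by
        have : p ∣ 2 ^ 4 := by simpa using h
        exact hpp.dvd_of_dvd_pow this
      have := Nat.le_of_dvd (by norm_num) h2
      omega
    · obtain ⟨l, hl, hpl⟩ := (Prime.dvd_finsetProd_iff hpp.prime _).1 h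
      have hl' := (Finset.mem_filter.1 hl).1
      rw [Finset.mem_Icc] at hl'
      have h2 : p ∣ l := hpp.dvd_of_dvd_pow hpl
      have := Nat.le_of_dvd (by omega) h2
      omega
  have hyR : (3 : ℝ) ≤ y := by exact_mod_cast hy2
  have hPpos' : 0 < P.card := by
    have : 1 ≤ k ^ 2 := Nat.one_le_pow _ _ hk1'
    omega
  have hpipos : (0 : ℝ) < P.card := by exact_mod_cast hPpos'
  have hXR : (3 : ℝ) ≤ X := by exact_mod_cast hX3
  have hX0 : (0 : ℝ) < X := by linarith
  set W := WS z X ρ with hWdef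
  have hWlow : 2 * (X : ℝ) ^ (cc a) + P.card * (X : ℝ) ^ (1 - cc a) ≤ W := by
    refine hW.trans ?_
    rw [hWdef, WS, one_mul]
    have := hρ.low
    gcongr
  have hWpos : 0 < W := by
    have h1 : 0 < (X : ℝ) ^ (cc a) := by positivity
    have h2 : 0 ≤ (P.card : ℝ) * (X : ℝ) ^ (1 - cc a) := by positivity
    linarith
  have hD1 : ∀ D ∈ DT z r X T, X < D := by
    intro D hD
    unfold DT at hD
    rw [Finset.mem_filter, Finset.mem_Ioc] at hD
    exact lt_of_le_of_lt hXT hD.1.1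
  have hw : ∀ D ∈ DT z r X T, 0 ≤ wt ρ D := fun D hD =>
    (hWT z X P (cc a) C0 ρ (by omega) (by linarith) hρ D (by have := hD1 D hD; omega)).1
  have hsumw : ∑ D ∈ DT z r X T, wt ρ D ≤ W + 2 * (X : ℝ) ^ (cc a) := by
    have h1 := hV0 z r X T P (cc a) C0 ρ 1 hr (by omega) (by linarith) hρ le_rfl
      (Nat.coprime_one_left _)
    have h2 : (DT z r X T).filter (fun D => 1 ∣ D) = DT z r X T := by
      apply Finset.filter_true_of_mem
      intro D _
      exact one_dvd D
    have h3 : X / Qz z * ∑ d ∈ Finset.Icc 1 X, ρ d / (Nat.lcm d 1 : ℝ) = W := by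
      rw [hWdef, WS, GG]
      simp
    rw [h2, h3] at h1
    have := le_of_abs_le h1
    linarith
  set θ : ℝ := P.card * ε / (4 * k) with hθ
  have hθpos : 0 < θ := by positivity
  -- the bad set
  have hcross : ∀ p ∈ P, ∀ q ∈ P, p ≠ q →
      |∑ D ∈ DT z r X T, wt ρ D * ((jacobiSym (D : ℤ) (p * q) : ℤ) : ℝ)| ≤
        (X : ℝ) ^ (1 - cc a) := by
    intro p hp q hq hpq
    obtain ⟨hp1, hp2, hp3⟩ := hmem p hp
    obtain ⟨hq1, hq2, hq3⟩ := hmem q hq
    refine (hX1 X hXX1 T ⟨hXT, hTX⟩ ρ hρ (p * q) (Nat.mul_pos hp1.pos hq1.pos) ?_ ?_).1 ?_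
    · apply Nat.Coprime.mul_left
      · exact (Nat.Prime.coprime_iff_not_dvd hp1).2 (hnd p hp)
      · exact (Nat.Prime.coprime_iff_not_dvd hq1).2 (hnd q hq)
    · rintro ⟨m, hm⟩
      have h1 : p ∣ m * m := by rw [← hm]; exact Dvd.intro _ rfl
      have h2 : p ∣ m := by
        rcases (Nat.Prime.dvd_mul hp1).1 h1 with h | h <;> exact h
      obtain ⟨m', rfl⟩ := h2
      have h3 : q = p * (m' * m') := by
        have h4 : p * q = p * (p * (m' * m')) := by rw [hm]; ring
        exact Nat.eq_of_mul_eq_mul_left hp1.pos h4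
      have h5 : p ∣ q := by rw [h3]; exact Dvd.intro _ rfl
      exact hpq ((Nat.prime_dvd_prime_iff_eq hp1 hq1).1 h5)
    · have h1 : ((p * q : ℕ) : ℝ) ≤ (2 * (y : ℝ)) ^ 2 := by
        push_cast
        have h2 : (p : ℝ) ≤ 2 * y := by exact_mod_cast hp3
        have h3 : (q : ℝ) ≤ 2 * y := by exact_mod_cast hq3
        rw [sq]
        gcongr
      refine h1.trans (hy4.trans ?_)
      calc (X : ℝ) = (X : ℝ) ^ (1 : ℝ) := (Real.rpow_one _).symm
        _ ≤ _ := Real.rpow_le_rpow_of_exponent_le (by linarith) (by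
          unfold th; linarith)
  have hsm := second_moment_w (DT z r X T) (wt ρ) hw P (fun p hp => (hmem p hp).1)
    ((X : ℝ) ^ (1 - cc a)) (by positivity) hcross
  have hcheb := chebyshev_w (DT z r X T) (wt ρ) hw P θ hθpos
  set b : ℝ := ∑ D ∈ (DT z r X T).filter (fun D => θ ≤ |(TT P D : ℝ)|), wt ρ D with hb
  have htot : b * θ ^ 2 ≤ 2 * P.card * W := by
    refine hcheb.trans (hsm.trans ?_)
    calc (P.card : ℝ) * ∑ D ∈ DT z r X T, wt ρ D + (P.card : ℝ) ^ 2 * (X : ℝ) ^ (1 - cc a)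
        ≤ (P.card : ℝ) * (W + 2 * (X : ℝ) ^ (cc a)) +
          (P.card : ℝ) ^ 2 * (X : ℝ) ^ (1 - cc a) := by gcongr
      _ = (P.card : ℝ) * W + P.card * (2 * (X : ℝ) ^ (cc a) +
          P.card * (X : ℝ) ^ (1 - cc a)) := by ring
      _ ≤ (P.card : ℝ) * W + P.card * W := by gcongr
      _ = _ := by ring
  have hbadcard : b ≤ ε * W := by
    have h3 : b * θ ^ 2 = b * ((P.card : ℝ) ^ 2 * ε ^ 2) / (16 * (k : ℝ) ^ 2) := by
      rw [hθ]; field_simp; ring
    have h1 := htot
    rw [h3, div_le_iff₀ (by positivity)] at h1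
    have h4 : b * (P.card : ℝ) * ε ^ 2 ≤ ε ^ 3 * P.card * W := by
      have h5 : (P.card : ℝ) * (b * (P.card : ℝ) * ε ^ 2) ≤
          (P.card : ℝ) * (32 * (k : ℝ) ^ 2 * W) := by
        calc (P.card : ℝ) * (b * (P.card : ℝ) * ε ^ 2) = b * ((P.card : ℝ) ^ 2 * ε ^ 2) := by ring
          _ ≤ 2 * P.card * W * (16 * (k : ℝ) ^ 2) := h1
          _ = _ := by ring
      have h6 := le_of_mul_le_mul_left h5 hpipos
      have h7 : 32 * (k : ℝ) ^ 2 * W ≤ ε ^ 3 * P.card * W := by gcongr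
      linarith
    have h5 : ((P.card : ℝ) * ε ^ 2) * b ≤ ((P.card : ℝ) * ε ^ 2) * (ε * W) := by
      calc ((P.card : ℝ) * ε ^ 2) * b = b * (P.card : ℝ) * ε ^ 2 := by ring
        _ ≤ ε ^ 3 * P.card * W := h4
        _ = _ := by ring
    exact le_of_mul_le_mul_left h5 (by positivity)
  refine le_trans ?_ hbadcard
  have hsub : (DT z r X T).filter (fun D => MD D (SA a X) (fun _ => 1) < (1 - ε) * NA a X) ⊆
      (DT z r X T).filter (fun D => θ ≤ |(TT P D : ℝ)|) := by
    intro D hD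
    rw [Finset.mem_filter] at hD ⊢
    refine ⟨hD.1, ?_⟩
    by_contra hlt
    push Not at hlt
    have hDD := hD.1
    simp only [DT, Finset.mem_filter, Finset.mem_Ioc] at hDD
    have hDX : X < D := lt_of_le_of_lt hXT hDD.1.1
    have hDle : (D : ℝ) ≤ 2 * T := by
      have h1 : (D : ℝ) ≤ ((T + X : ℕ) : ℝ) := by exact_mod_cast hDD.1.2
      have h2 : (X : ℝ) ≤ T := by exact_mod_cast hXT
      push_cast at h1
      linarith
    have hT0 : (0 : ℝ) < T := by
      have h2 : (X : ℝ) ≤ T := by exact_mod_cast hXT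
      linarith
    have hlogT : Real.log T ≤ 2 * L := by
      have h1 : √(T : ℝ) ≤ (X : ℝ) ^ (1 : ℝ) := by
        refine hTX.trans (Real.rpow_le_rpow_of_exponent_le (by linarith) ?_)
        have h11 := ee_le ha
        have h12 := ccpos ha
        linarith
      have h2 : Real.log (√(T : ℝ)) ≤ Real.log ((X : ℝ) ^ (1 : ℝ)) :=
        Real.log_le_log (Real.sqrt_pos.2 hT0) h1
      rw [Real.log_sqrt hT0.le, Real.log_rpow hX0, ← hLdef] at h2
      linarith
    apply absurd hD.2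
    push Not
    set S := (P.filter (fun p => jacobiSym (D : ℤ) p = 1)).card with hS
    set R := (P.filter (fun p => jacobiSym (D : ℤ) p = 0)).card with hR
    have hcount := split_count P D
    rw [← hS, ← hR] at hcount
    have hcountR : 2 * (S : ℝ) = P.card - R + (TT P D : ℝ) := by exact_mod_cast hcount
    have hram := ramified P y D (fun p hp => ⟨(hmem p hp).1, (hmem p hp).2.1⟩) (by omega)
    rw [← hR] at hram
    have hlogy : 1 ≤ Real.log y := by
      rw [Real.le_log_iff_exp_le (by linarith)]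
      have := Real.exp_one_lt_d9
      linarith
    have hRL : (R : ℝ) ≤ 5 * k := by
      have h1 : ((y : ℝ)) ^ R ≤ (D : ℝ) := by exact_mod_cast hram
      have h2 : Real.log ((y : ℝ) ^ R) ≤ Real.log (2 * T) := by
        apply Real.log_le_log (by positivity)
        exact h1.trans hDle
      rw [Real.log_pow, Real.log_mul (by norm_num) (by positivity)] at h2
      have h3 : Real.log 2 ≤ L := by
        rw [hLdef]
        exact Real.log_le_log (by norm_num) (by linarith)
      have h4 : th a * L / Real.log y ≤ k := by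
        rw [hk, kA]
        push_cast
        rw [← hLdef, ← hy]
        exact (Nat.lt_floor_add_one _).le
      rw [div_le_iff₀ (by linarith)] at h4
      have hL0 : 0 ≤ L := Real.log_natCast_nonneg X
      have h5 : (3 / 4 : ℝ) * L ≤ th a * L := by
        have : (3 / 4 : ℝ) ≤ th a := by unfold th; linarith
        gcongr
      have h6 : (R : ℝ) * Real.log y ≤ (5 * k) * Real.log y := by linarith
      exact le_of_mul_le_mul_right h6 (by linarith)
    set x : ℝ := (R + 2 * k + θ) / P.card with hx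
    have hε3 : ε ^ 3 ≤ ε := by
      calc ε ^ 3 ≤ ε ^ 1 := pow_le_pow_of_le_one hε.le hε1 (by norm_num)
        _ = ε := pow_one _
    have hkx : k * x ≤ ε := by
      have h1 : k * x = k * (R + 2 * k) / P.card + ε / 4 := by
        rw [hx, hθ]; field_simp
      rw [h1]
      have h2 : k * (R + 2 * k) / P.card ≤ 3 * ε / 4 := by
        rw [div_le_iff₀ hpipos]
        have h3 : (k : ℝ) * (R + 2 * k) ≤ k * (5 * k + 2 * k) := by gcongr
        have h4 : ε ^ 3 * (P.card : ℝ) ≤ ε * P.card := by gcongr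
        nlinarith
      linarith
    have hx0 : 0 ≤ x := by positivity
    have hx1 : x ≤ 1 := by
      have : 1 * x ≤ k * x := by gcongr
      linarith
    have hTlow : -θ ≤ (TT P D : ℝ) := (abs_le.1 hlt.le).1
    have hcond : (1 - x) * (P.card : ℝ) ≤ 2 * ((S : ℝ) - k) := by
      have h1 : (1 - x) * (P.card : ℝ) = P.card - (R + 2 * k + θ) := by
        rw [hx]; field_simp
      rw [h1]
      linarith
    have hkey := key_choose S k P.card x hx1 hcond
    have hMD := MD_lower P (fun p hp => ⟨(hmem p hp).1, by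
      have := (hmem p hp).2.1; omega⟩) k D
    rw [← hS] at hMD
    have hNX : NA a X = (P.card.choose k : ℝ) := rfl
    have hSX : SA a X = P.powersetCard k := rfl
    rw [hNX, hSX]
    calc (1 - ε) * (P.card.choose k : ℝ) ≤ (1 - k * x) * (P.card.choose k : ℝ) := by
          gcongr
      _ ≤ 2 ^ k * (S.choose k : ℝ) := hkey
      _ ≤ _ := hMD
  exact Finset.sum_le_sum_of_subset_of_nonneg hsub
    fun D hD _ => hw D (Finset.mem_filter.1 hD).1

theorem main : P2_SZ → P2_NB → P2_COMB → P2_PAIR → P2_WT → Q_V0 → Q_V1 → Q_MLOW := by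
  intro _ hNB _ _ hWT hV0 hV1 a ha κ hκ z r hF C0 _ ε hε
  obtain ⟨hc0, hc1⟩ := cc_bounds a ha
  set e := min ε 1 with he
  have he0 : 0 < e := lt_min hε one_pos
  have heε : e ≤ ε := min_le_left _ _
  obtain ⟨X0, hX0⟩ := eventually_atTop.1 ((core hNB hWT hV0 hV1 a ha κ hκ z r hF C0 e he0
    (min_le_right _ _)).and (eventually_ge_atTop 3))
  refine ⟨X0, fun X hX T hRG ρ hρ => ?_⟩
  obtain ⟨h, h3⟩ := hX0 X hX
  have h := h T hRG ρ hρ
  obtain ⟨hXT, hTX⟩ := hRG
  have hNX : 0 ≤ NA a X := Nat.cast_nonneg _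
  have hsub : (DT z r X T).filter (fun D => MD D (SA a X) (fun _ => 1) < (1 - ε) * NA a X) ⊆
      (DT z r X T).filter (fun D => MD D (SA a X) (fun _ => 1) < (1 - e) * NA a X) := by
    intro D hD
    rw [Finset.mem_filter] at hD ⊢
    refine ⟨hD.1, lt_of_lt_of_le hD.2 ?_⟩
    gcongr
  have hw : ∀ D ∈ DT z r X T, 0 ≤ wt ρ D := by
    intro D hD
    unfold DT at hD
    rw [Finset.mem_filter, Finset.mem_Ioc] at hD
    exact (hWT z X (PA a X) (cc a) C0 ρ (by omega) (by linarith) hρ D (by omega)).1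
  have hW0 : 0 ≤ WS z X ρ := by
    have h1 := hρ.low
    have hXR : (3 : ℝ) ≤ X := by exact_mod_cast h3
    have h2 : 0 < ((Real.log X) ^ C0)⁻¹ := by
      have := Real.log_pos (by linarith : (1 : ℝ) < X)
      positivity
    have h4 : 0 ≤ GG X ρ := h2.le.trans h1
    unfold WS
    positivity
  calc ∑ D ∈ (DT z r X T).filter (fun D => MD D (SA a X) (fun _ => 1) < (1 - ε) * NA a X), wt ρ D
      ≤ ∑ D ∈ (DT z r X T).filter (fun D => MD D (SA a X) (fun _ => 1) < (1 - e) * NA a X),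
          wt ρ D := Finset.sum_le_sum_of_subset_of_nonneg hsub
            fun D hD _ => hw D (Finset.mem_filter.1 hD).1
    _ ≤ e * WS z X ρ := h
    _ ≤ ε * WS z X ρ := by gcongr

end Pool.Agent.H52.W.SH.MLOW
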