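import Pool.Agent.H52.W.SH.Stubs
import Pool.Agent.H52.W.CG2.TMc

/-!
# SH-TMc: pairs with any intersection, lossy (adapted from `CG2/TMc.lean`)
-/

set_option autoImplicit false

namespace Pool.Agent.H52.W.SH.TMc

variable [Lam]

open Finset Filter NumberField Pool.Agent.H38R2.CG Pool.Agent.H52.W.CG2
open Pool.Agent.H52.W.CG2.TMch (params Fanti Fint)
open scoped Classical

theorem eta_facts {X T : ℕ} (hX : 1 ≤ X) (hXT : X ≤ T) : ∃ η : ℝ, η = (X : ℝ) / (T : ℝ) ∧
    0 < η ∧ η ≤ 1 ∧ η * √(T : ℝ) = (X : ℝ) / √(T : ℝ) := by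
  have hX0 : (0 : ℝ) < X := by exact_mod_cast hX
  have hXT' : (X : ℝ) ≤ T := by exact_mod_cast hXT
  have hT0 : (0 : ℝ) < T := hX0.trans_le hXT'
  refine ⟨(X : ℝ) / T, rfl, by positivity, by rw [div_le_one hT0]; exact hXT', ?_⟩
  have h1 : √(T : ℝ) ≠ 0 := (Real.sqrt_pos.2 hT0).ne'
  have h2 : √(T : ℝ) * √(T : ℝ) = T := Real.mul_self_sqrt hT0.le
  rw [div_mul_eq_mul_div, div_eq_div_iff hT0.ne' h1, mul_assoc, h2]

theorem core (hTB2 : P_TB2) (hTB3c : P_TB3c) (hFJ : P2_FJ) (hJP : P2_JP) (hOMC : P2_OMC)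
    (l : ℝ) (hl : 0 < l)
    (hOM : ∀ (T : ℕ) (η v x T0 T1 : ℝ), 1 ≤ T → 0 < η → η ≤ 1 → 0 ≤ v → T0 + 1 ≤ x → x + 1 ≤ T1 →
      om T η v (Real.exp x) ≤ (1 + 1) * Real.exp (1 / 2) * (∫ t in T0..T1,
        om T η (v * Real.exp (-(1 / 2))) (Real.exp t) * (l / fejI * fej (l * (x - t)))))
    (a : ℝ) (z r X T : ℕ) (η : ℝ) (hX : 1 ≤ T) (hηd : η = (X : ℝ) / (T : ℝ)) (hη : 0 < η)
    (hη1 : η ≤ 1) (ρ : ℕ → ℝ) (C0 : ℕ)
    (hρ : SWt z X (PA a X) (cc a) C0 ρ)
    (hQ : ∀ p ∈ PA a X, ¬ p ∣ Qz z) (c : Finset ℕ) (hc : c ⊆ PA a X) (k : ℕ) (T0 T1 : ℝ)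
    (hT : T0 ≤ T1)
    (hx : ∀ s ∈ (PA a X).powersetCard k, ∀ t ∈ (PA a X).powersetCard k,
      T0 + 1 ≤ Real.log (prodS c ^ 2 * (prodS s * prodS t) : ℕ) ∧
      Real.log (prodS c ^ 2 * (prodS s * prodS t) : ℕ) + 1 ≤ T1)
    (A1 A2 : ℝ) (hA1 : 0 ≤ A1)
    (hUJ : ∀ t : ℝ, ∑ v ∈ Finset.Icc 1 ⌊(X : ℝ) ^ (1 - cc a)⌋₊,
      UJ a z X k ρ c (fun v => om T η (v * Real.exp (-(1 / 2))) (Real.exp t)) l t v ≤
      A1 * SF a X k c l t + A2) :
    ∑ s ∈ (PA a X).powersetCard k, ∑ t ∈ (PA a X).powersetCard k, MS a z r X T ρ c s t ≤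
      2 ^ z * 16 * Real.exp (1 / 2) * (A1 * (CA a X k) ^ 2 + A2 * (l / fejI) * (T1 - T0)) := by
  obtain ⟨hF0, hFnn, hFc, hFI, -⟩ := hFJ
  set V := ⌊(X : ℝ) ^ (1 - cc a)⌋₊ with hV
  set P := PA a X with hP
  have hPprime : ∀ p ∈ P, p.Prime := by
    intro p hp
    exact (Finset.mem_filter.1 hp).2
  have hQ0 : 0 < Qz z := by
    unfold Qz
    apply Nat.mul_pos (by norm_num)
    apply Finset.prod_pos
    intro p hp
    exact pow_pos (Finset.mem_filter.1 hp).2.pos 2
  have hQ0' : (0 : ℝ) < Qz z := by exact_mod_cast hQ0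
  have hcop : ∀ s, s ⊆ P → (prodS s).Coprime (Qz z) := by
    intro s hs
    apply Nat.Coprime.prod_left
    intro p hp
    exact (Nat.Prime.coprime_iff_not_dvd (hPprime p (hs hp))).2 (hQ p (hs hp))
  have hpos : ∀ s, s ⊆ P → 0 < prodS s := by
    intro s hs
    apply Finset.prod_pos
    intro p hp
    exact (hPprime p (hs hp)).pos
  -- abbreviations
  let N : Finset ℕ → Finset ℕ → ℕ := fun s t => prodS c ^ 2 * (prodS s * prodS t)
  let g : ℕ → Finset ℕ → Finset ℕ → ℝ → ℝ := fun v s t t' =>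
    om T η ((v : ℝ) * Real.exp (-(1 / 2))) (Real.exp t') *
      (l / fejI * fej (l * (Real.log (N s t : ℕ) - t')))
  have hgc : ∀ v s t, Continuous (g v s t) := by
    intro v s t
    apply Continuous.mul
    · exact hOMC T η _ hX hη hη1 (by positivity)
    · apply Continuous.mul continuous_const
      apply hFc.comp
      fun_prop
  have hJJ : ∀ m v, 0 ≤ JJ z X ρ c m v := fun m v => hJP z X P (cc a) C0 ρ c m v hρ
  have hMT : ∀ s ∈ P.powersetCard k, ∀ t ∈ P.powersetCard k, MS a z r X T ρ c s t ≤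
      2 ^ z * 16 * Real.exp (1 / 2) * ∑ v ∈ Finset.Icc 1 V,
        JJ z X ρ c (prodS s * prodS t) v * ∫ t' in T0..T1, g v s t t' := by
    intro s hs t ht
    have hs' := (Finset.mem_powersetCard.1 hs).1
    have ht' := (Finset.mem_powersetCard.1 ht).1
    unfold MS omT
    rw [← hηd]
    rw [Finset.mul_sum]
    apply Finset.sum_le_sum
    intro v hv
    have hv1 : 1 ≤ v := (Finset.mem_Icc.1 hv).1
    have hN0 : 0 < N s t := Nat.mul_pos (pow_pos (hpos c hc) 2)
      (Nat.mul_pos (hpos s hs') (hpos t ht'))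
    have hN0' : (0 : ℝ) < (N s t : ℕ) := by exact_mod_cast hN0
    have hNc : (N s t).Coprime (Qz z) :=
      Nat.Coprime.mul_left (Nat.Coprime.pow_left 2 (hcop c hc))
        (Nat.Coprime.mul_left (hcop s hs') (hcop t ht'))
    have h1 : (rhoQ z r (N s t) v : ℝ) ≤ Qz z * (8 * 2 ^ z) := by
      have := hTB3c z r (N s t) v hv1 hNc
      have h2 : (rhoQ z r (N s t) v : ℝ) ≤ ((Qz z * 8 * 2 ^ z : ℕ) : ℝ) := by exact_mod_cast this
      push_cast at h2
      linarith
    have hom0 : 0 ≤ om T η v (N s t : ℕ) := (hTB2 T η hX hη hη1 _ hN0').2.1 v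
    have h3 : om T η v (N s t : ℕ) / Qz z * ((rhoQ z r (N s t) v : ℝ) *
        JJ z X ρ c (prodS s * prodS t) v) ≤
        (8 * 2 ^ z) * (om T η v (N s t : ℕ) * JJ z X ρ c (prodS s * prodS t) v) := by
      have h4 : om T η v (N s t : ℕ) / Qz z * ((rhoQ z r (N s t) v : ℝ) *
        JJ z X ρ c (prodS s * prodS t) v) =
        (rhoQ z r (N s t) v : ℝ) / Qz z * (om T η v (N s t : ℕ) *
          JJ z X ρ c (prodS s * prodS t) v) := by ring
      rw [h4]
      apply mul_le_mul_of_nonneg_right _ (mul_nonneg hom0 (hJJ _ _))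
      rw [div_le_iff₀ hQ0']
      linarith
    have h5 := hOM T η v (Real.log (N s t : ℕ)) T0 T1 hX hη hη1 (by positivity)
      (hx s hs t ht).1 (hx s hs t ht).2
    rw [Real.exp_log hN0'] at h5
    have h6 : om T η v (N s t : ℕ) * JJ z X ρ c (prodS s * prodS t) v ≤
        ((1 + 1) * Real.exp (1 / 2) * ∫ t' in T0..T1, g v s t t') *
          JJ z X ρ c (prodS s * prodS t) v := mul_le_mul_of_nonneg_right h5 (hJJ _ _)
    calc _ ≤ _ := h3
      _ ≤ (8 * 2 ^ z) * (((1 + 1) * Real.exp (1 / 2) * ∫ t' in T0..T1, g v s t t') *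
          JJ z X ρ c (prodS s * prodS t) v) := mul_le_mul_of_nonneg_left h6 (by positivity)
      _ = _ := by ring
  -- sum over everything
  have hsum : ∑ s ∈ P.powersetCard k, ∑ t ∈ P.powersetCard k, MS a z r X T ρ c s t ≤
      2 ^ z * 16 * Real.exp (1 / 2) * ∑ s ∈ P.powersetCard k, ∑ t ∈ P.powersetCard k,
        ∑ v ∈ Finset.Icc 1 V, JJ z X ρ c (prodS s * prodS t) v * ∫ t' in T0..T1, g v s t t' := by
    rw [Finset.mul_sum]
    apply Finset.sum_le_sum
    intro s hs
    rw [Finset.mul_sum]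
    apply Finset.sum_le_sum
    intro t ht
    exact hMT s hs t ht
  refine hsum.trans ?_
  apply mul_le_mul_of_nonneg_left _ (by positivity)
  let G : ℝ → ℝ := fun t' => ∑ s ∈ P.powersetCard k, ∑ t ∈ P.powersetCard k,
    ∑ v ∈ Finset.Icc 1 V, JJ z X ρ c (prodS s * prodS t) v * g v s t t'
  have hGint : ∫ t' in T0..T1, G t' = ∑ s ∈ P.powersetCard k, ∑ t ∈ P.powersetCard k,
        ∑ v ∈ Finset.Icc 1 V, JJ z X ρ c (prodS s * prodS t) v * ∫ t' in T0..T1, g v s t t' := by
    simp only [G]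
    rw [intervalIntegral.integral_finsetSum]
    · apply Finset.sum_congr rfl
      intro s hs
      rw [intervalIntegral.integral_finsetSum]
      · apply Finset.sum_congr rfl
        intro t ht
        rw [intervalIntegral.integral_finsetSum]
        · apply Finset.sum_congr rfl
          intro v hv
          rw [intervalIntegral.integral_const_mul]
        · intro v hv
          exact (continuous_const.mul (hgc v s t)).intervalIntegrable _ _
      · intro t ht
        exact (continuous_finsetSum _ fun v _ =>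
          continuous_const.mul (hgc v s t)).intervalIntegrable _ _
    · intro s hs
      exact (continuous_finsetSum _ fun t _ => continuous_finsetSum _ fun v _ =>
          continuous_const.mul (hgc v s t)).intervalIntegrable _ _
  rw [← hGint]
  have hGc : Continuous G := continuous_finsetSum _ fun s _ => continuous_finsetSum _ fun t _ =>
    continuous_finsetSum _ fun v _ => continuous_const.mul (hgc v s t)
  have hGU : ∀ t', G t' = (l / fejI) * ∑ v ∈ Finset.Icc 1 V,
      UJ a z X k ρ c (fun v => om T η (v * Real.exp (-(1 / 2))) (Real.exp t')) l t' v := by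
    intro t'
    simp only [G, UJ, g]
    have hcomm : ∑ s ∈ P.powersetCard k, ∑ t ∈ P.powersetCard k,
        ∑ v ∈ Finset.Icc 1 V, JJ z X ρ c (prodS s * prodS t) v *
          (om T η ((v : ℝ) * Real.exp (-(1 / 2))) (Real.exp t') *
            (l / fejI * fej (l * (Real.log (N s t : ℕ) - t')))) =
        ∑ v ∈ Finset.Icc 1 V, ∑ s ∈ P.powersetCard k, ∑ t ∈ P.powersetCard k,
          JJ z X ρ c (prodS s * prodS t) v *
          (om T η ((v : ℝ) * Real.exp (-(1 / 2))) (Real.exp t') *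
            (l / fejI * fej (l * (Real.log (N s t : ℕ) - t')))) := by
      calc _ = ∑ s ∈ P.powersetCard k, ∑ v ∈ Finset.Icc 1 V, ∑ t ∈ P.powersetCard k,
          JJ z X ρ c (prodS s * prodS t) v *
          (om T η ((v : ℝ) * Real.exp (-(1 / 2))) (Real.exp t') *
            (l / fejI * fej (l * (Real.log (N s t : ℕ) - t')))) :=
            Finset.sum_congr rfl fun s _ => Finset.sum_comm
        _ = _ := Finset.sum_comm
    rw [hcomm, Finset.mul_sum]
    apply Finset.sum_congr rfl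
    intro v hv
    rw [Finset.mul_sum, Finset.mul_sum]
    apply Finset.sum_congr rfl
    intro s hs
    rw [Finset.mul_sum, Finset.mul_sum]
    apply Finset.sum_congr rfl
    intro t ht
    ring
  have hlF : 0 ≤ l / fejI := by positivity
  have hSFc : Continuous (fun t' => SF a X k c l t') := by
    unfold SF
    apply continuous_finsetSum
    intro s _
    apply continuous_finsetSum
    intro t _
    apply hFc.comp
    fun_prop
  have hle : ∫ t' in T0..T1, G t' ≤ ∫ t' in T0..T1, (l / fejI) * (A1 * SF a X k c l t' + A2) := by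
    apply intervalIntegral.integral_mono_on hT (hGc.intervalIntegrable _ _)
    · apply Continuous.intervalIntegrable
      exact continuous_const.mul ((continuous_const.mul hSFc).add continuous_const)
    · intro t' _
      rw [hGU t']
      exact mul_le_mul_of_nonneg_left (hUJ t') hlF
  refine hle.trans ?_
  have hSFint : (l / fejI) * ∫ t' in T0..T1, SF a X k c l t' ≤ (CA a X k) ^ 2 := by
    have h1 : ∫ t' in T0..T1, SF a X k c l t' = ∑ s ∈ P.powersetCard k, ∑ t ∈ P.powersetCard k,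
        ∫ t' in T0..T1, fej (l * (Real.log (N s t : ℕ) - t')) := by
      unfold SF
      rw [intervalIntegral.integral_finsetSum]
      · apply Finset.sum_congr rfl
        intro s hs
        rw [intervalIntegral.integral_finsetSum]
        intro t ht
        apply Continuous.intervalIntegrable
        apply hFc.comp
        fun_prop
      · intro s hs
        apply Continuous.intervalIntegrable
        apply continuous_finsetSum
        intro t _
        apply hFc.comp
        fun_prop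
    rw [h1, Finset.mul_sum]
    have h2 : ∀ s ∈ P.powersetCard k, (l / fejI) * ∑ t ∈ P.powersetCard k,
        ∫ t' in T0..T1, fej (l * (Real.log (N s t : ℕ) - t')) ≤ CA a X k := by
      intro s hs
      rw [Finset.mul_sum]
      have h3 : ∀ t ∈ P.powersetCard k, (l / fejI) *
          ∫ t' in T0..T1, fej (l * (Real.log (N s t : ℕ) - t')) ≤ 1 := by
        intro t ht
        have h4 := hFI l (Real.log (N s t : ℕ)) T0 T1 hl hT
        rw [intervalIntegral.integral_const_mul] at h4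
        rw [div_mul_eq_mul_div, div_le_one hF0]
        exact h4
      refine (Finset.sum_le_sum h3).trans ?_
      rw [Finset.sum_const, Finset.card_powersetCard, nsmul_eq_mul, mul_one]
      exact le_rfl
    refine (Finset.sum_le_sum h2).trans ?_
    rw [Finset.sum_const, Finset.card_powersetCard, nsmul_eq_mul, sq]
    exact le_rfl
  have hexp : ∫ t' in T0..T1, (l / fejI) * (A1 * SF a X k c l t' + A2) =
      A1 * ((l / fejI) * ∫ t' in T0..T1, SF a X k c l t') + A2 * (l / fejI) * (T1 - T0) := by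
    have i1 : IntervalIntegrable (fun t' => A1 * SF a X k c l t') MeasureTheory.volume T0 T1 :=
      (continuous_const.mul hSFc).intervalIntegrable _ _
    rw [intervalIntegral.integral_const_mul, intervalIntegral.integral_add i1
      intervalIntegrable_const,
      intervalIntegral.integral_const_mul, intervalIntegral.integral_const, smul_eq_mul]
    ring
  rw [hexp]
  have := mul_le_mul_of_nonneg_left hSFint hA1
  linarith

theorem main : P2_SZ → P2_NB → P_TB2 → P_TB3c → P2_FJ → P2_JP → P2_OMC → P2_OM → P2_TC0 →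
    Q_TMc := by
  intro hSZ hNB hTB2 hTB3c hFJ hJP hOMC hOM hTC0 a ha κ hκ z r hz hr C0 hC0
  obtain ⟨l, hl, hOMl⟩ := hOM 1 1 one_pos one_pos le_rfl
  obtain ⟨X0, hX0⟩ := params hSZ hNB a ha z 2
  refine ⟨X0, fun X hX T hRG ρ hρ c hc hck => ?_⟩
  obtain ⟨hX3, hlog, hk2, hQ, hsize⟩ := hX0 X hX
  set k := kA a X - c.card with hk
  have hX1 : 1 ≤ X := by omega
  obtain ⟨η, hηd, hη, hη1, hηT⟩ := eta_facts hX1 hRG.1
  have hT1 : 1 ≤ T := hX1.trans hRG.1
  have hcc : 0 < cc a := by
    exact ccpos (by assumption)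
  have hG : 0 ≤ GG X ρ := by
    refine le_trans ?_ hρ.low
    have : (0 : ℝ) ≤ Real.log X := by linarith
    positivity
  set I : ℝ := Real.exp (1 / 2) * (η * √(T : ℝ) / 8) with hI
  have hl0 : (0 : ℝ) ≤ 1 + Real.log X := by linarith
  have hA1 : 0 ≤ (3 : ℝ) ^ c.card * GG X ρ * (I / (1 : ℕ)) * (1 + Real.log X) ^ (2 * C0) := by
    positivity
  have hcore := core hTB2 hTB3c hFJ hJP hOMC l hl hOMl a z r X T η hT1 hηd hη hη1 ρ C0 hρ hQ c hc k
    (2 * th a * Real.log X - 1) (2 * (th a + cc a) * Real.log X + 1) (by nlinarith)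
    (by
      intro s hs t ht
      have := hsize c hc hck s hs t ht
      constructor <;> linarith [this.1, this.2])
    _ 0 hA1 (by
      intro t
      have h1 := hTC0 a ha z X hX3 C0 hC0 ρ hρ hQ c k 1 ⌊(X : ℝ) ^ (1 - cc a)⌋₊
        (fun v => om T η (v * Real.exp (-(1 / 2))) (Real.exp t)) I l t hc le_rfl
        (by
          intro p hp hp1
          exact absurd (Nat.dvd_one.1 hp1) hp.one_lt.ne')
        (Fanti hTB2 T η hT1 hη hη1 t)
        (fun x => (hTB2 T η hT1 hη hη1 (Real.exp t) (Real.exp_pos t)).2.1 _)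
        (fun V hV => Fint hTB2 T η hT1 hη hη1 t V hV) hl
        (Nat.floor_le (by positivity))
      rw [Finset.filter_true_of_mem (fun v _ => one_dvd v)] at h1
      rw [add_zero]
      exact h1)
  refine hcore.trans ?_
  have he : Real.exp (1 / 2) * Real.exp (1 / 2) ≤ 3 := by
    rw [← Real.exp_add]
    norm_num
    have := Real.exp_one_lt_d9
    linarith
  have hCA : 0 ≤ (CA a X k) ^ 2 := sq_nonneg _
  have hR : 0 ≤ (2 : ℝ) ^ z * (3 ^ c.card * (1 + Real.log X) ^ (2 * C0) * GG X ρ * η * √(T : ℝ) *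
      (CA a X k) ^ 2) := by positivity
  calc 2 ^ z * 16 * Real.exp (1 / 2) * ((3 : ℝ) ^ c.card * GG X ρ * (I / (1 : ℕ)) *
        (1 + Real.log X) ^ (2 * C0) * (CA a X k) ^ 2 + 0 * (l / fejI) *
          (2 * (th a + cc a) * Real.log X + 1 - (2 * th a * Real.log X - 1)))
      = 2 * (Real.exp (1 / 2) * Real.exp (1 / 2)) * ((2 : ℝ) ^ z * (3 ^ c.card *
        (1 + Real.log X) ^ (2 * C0) * GG X ρ * η * √(T : ℝ) * (CA a X k) ^ 2)) := by
        rw [hI]; push_cast; ring
    _ ≤ 32 * ((2 : ℝ) ^ z * (3 ^ c.card *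
        (1 + Real.log X) ^ (2 * C0) * GG X ρ * η * √(T : ℝ) * (CA a X k) ^ 2)) := by
        apply mul_le_mul_of_nonneg_right _ hR
        linarith
    _ = _ := by rw [← hηT, pow_add]; ring

end Pool.Agent.H52.W.SH.TMc
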