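import Pool.Agent.H52.W.SH.Final
import Pool.Agent.H52.W.SH.EXC
import Pool.Agent.H52.W.SH.SQ
import Pool.Agent.H52.W.SH.V0
import Pool.Agent.H52.W.SH.NB
import Pool.Agent.H52.W.SH.V1
import Pool.Agent.H52.W.SH.LM
import Pool.Agent.H52.W.SH.M1L
import Pool.Agent.H52.W.SH.MLOW
import Pool.Agent.H52.W.SH.ERR
import Pool.Agent.H52.W.SH.TMa
import Pool.Agent.H52.W.SH.TMb
import Pool.Agent.H52.W.SH.TMc
import Pool.Agent.H52.W.SH.TM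
import Pool.Agent.H52.W.SH.AS0
import Pool.Agent.H52.W.CG3.All

/-!
# Project SH: assembly
-/

set_option autoImplicit false

namespace Pool.Agent.H52.W.SH

variable [Lam]

open Finset Filter NumberField Pool.Agent.H38R2.CG Pool.Agent.H52.W.CG2 Pool.Agent.H52.W.CG3
open Pool.Agent.H951R5.AR
open scoped Classical

/-- the ingredients of the final theorem -/
theorem all : Q_SQ ∧ SH.AR.Q_EXCF ∧ P2_CH ∧ P2_MP ∧ Q_AS0 := by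
  have h_P_N0 : P_N0 := T_N0
  have h_P_N0d : P_N0d := T_N0d
  have h_P_SPL : P_SPL := T_SPL h_P_N0
  have h_P_N1 : P_N1 := T_N1 h_P_SPL
  have h_P_N2 : P_N2 := T_N2 h_P_SPL
  have h_P_KR : P_KR := T_KR
  have h_P_PV : P_PV := T_PV
  have h_P_N3a : P_N3a := T_N3a h_P_KR h_P_PV
  have h_P_N3b : P_N3b := T_N3b h_P_KR h_P_PV h_P_N3a
  have h_P_N3 : P_N3 := T_N3 h_P_N2 h_P_N3b
  have h_P_N4a : P_N4a := T_N4a
  have h_P_N4b : P_N4b := T_N4b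
  have h_P_N4 : P_N4 := T_N4 h_P_N4a h_P_N4b
  have h_P_KF : P_KF := T_KF
  have h_P_N5b : P_N5b := T_N5b h_P_KF h_P_N4
  have h_P_N6 : P_N6 := T_N6 h_P_KF
  have h_P_N0e : P_N0e := T_N0e h_P_N0d
  have h_P_N5a : P_N5a := T_N5a h_P_KF
  have h_P_N5 : P_N5 := T_N5 h_P_N3 h_P_N4 h_P_N5a h_P_N5b
  have h_P_NF : P_NF := T_NF h_P_N0 h_P_N0e h_P_N1 h_P_N3 h_P_N5 h_P_N6
  have h_P_NB : P_NB := Pool.Agent.H38R2.CG.T_NB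
  have h_P2_NB : P2_NB := T2_NB h_P_NB
  have h_P2_WT : P2_WT := T2_WT
  have h_P2_SZ : P2_SZ := T2_SZ
  have h_P2_COMB : P2_COMB := T2_COMB
  have h_P2_PAIR : P2_PAIR := T2_PAIR
  have h_P_TB2 : P_TB2 := T_TB2
  have h_P2_T1a : P2_T1a := T2_T1a
  have h_P2_R1 : P2_R1 := T2_R1
  have h_P2_R2 : P2_R2 := T2_R2
  have h_P2_T2 : P2_T2 := T2_T2 h_P2_R1 h_P2_R2
  have h_P2_JP : P2_JP := T2_JP
  have h_P_TB3a : P_TB3a := T_TB3a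
  have h_P2_FJ : P2_FJ := T2_FJ
  have h_P2_OMC : P2_OMC := T2_OMC
  have h_P2_OM : P2_OM := T2_OM h_P_TB2 h_P2_FJ h_P2_OMC
  have h_P_TB3c : P_TB3c := T_TB3c
  have h_P_TB6b : P_TB6b := T_TB6b
  have h_P_TB6c : P_TB6c := T_TB6c
  have h_P2_FS : P2_FS := T2_FS
  have h_P2_JX : P2_JX := T2_JX
  have h_P2_KB : P2_KB := T2_KB
  have h_P2_HS : P2_HS := T2_HS
  have h_P_LS : P_LS := T_LS
  have h_P_CC5 : P_CC5 := T_CC5 h_P_LS h_P_NB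
  have h_P_CC6 : P_CC6 := T_CC6 h_P_NB
  have h_P2_CC7 : P2_CC7 := T2_CC7 h_P_CC5 h_P_CC6
  have h_P_CC1 : P_CC1 := T_CC1
  have h_P_BT : P_BT := T_BT
  have h_P_CC3 : P_CC3 := T_CC3 h_P_BT h_P_NB
  have h_P2_CC4 : P2_CC4 := T2_CC4 h_P_CC1 h_P_CC3
  have h_P2_NBAD : P2_NBAD := T2_NBAD h_P2_NB h_P2_CC4
  have h_P2_TC : P2_TC := T2_TC h_P2_NB h_P2_FJ h_P2_FS h_P2_JX h_P2_KB h_P2_HS h_P2_CC7 h_P2_NBAD
  have h_P_TB6a : P_TB6a := T_TB6a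
  have h_P2_TD : P2_TD := T2_TD h_P_TB6a h_P_TB3c
  have h_P2_TE : P2_TE := T2_TE h_P2_NB h_P2_FJ h_P2_FS h_P2_JX h_P2_KB h_P2_HS h_P2_CC7 h_P2_NBAD h_P2_TD
  have h_P2_TA : P2_TA := T2_TA h_P_TB3c h_P_TB6b h_P_TB6c h_P2_FJ h_P2_JP h_P2_TC h_P2_TE
  have h_P2_TC0 : P2_TC0 := T2_TC0 h_P2_FJ h_P2_JX h_P2_KB h_P2_HS
  -- the new part
  have q_NB : Q_NB := T_NB h_P_NB
  have q_V0 : Q_V0 := V0.main h_P2_WT
  have q_T1 : Q_T1 := V0.main_T1 h_P2_WT h_P2_T1a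
  have q_V1 : Q_V1 := V1.main h_P_PV h_P2_WT
  have q_LM : Q_LM := LM.main h_P_N3a h_P2_WT q_V0 q_V1
  have q_M1L : Q_M1L := M1L.main h_P2_SZ h_P2_NB h_P2_WT q_V0 q_V1
  have q_MLOW : Q_MLOW := MLOW.main h_P2_SZ h_P2_NB h_P2_COMB h_P2_PAIR h_P2_WT q_V0 q_V1
  have q_ERR : Q_ERR := ERR.main h_P2_SZ h_P2_NB q_NB h_P2_WT q_V0 h_P2_R1 h_P_TB3a
  have q_TMa : Q_TMa := TMa.main h_P2_SZ h_P2_NB h_P_TB2 h_P2_FJ h_P2_JP h_P2_OMC h_P2_OM h_P2_TA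
  have q_TMb : Q_TMb := TMb.main h_P2_SZ h_P2_NB h_P_TB2 h_P_TB3c h_P2_FJ h_P2_JP h_P2_OMC h_P2_OM h_P2_TC
  have q_TMc : Q_TMc := TMc.main h_P2_SZ h_P2_NB h_P_TB2 h_P_TB3c h_P2_FJ h_P2_JP h_P2_OMC h_P2_OM h_P2_TC0
  have q_TM : Q_TM := TM.main h_P2_SZ h_P2_NB h_P2_COMB h_P2_PAIR h_P_TB2 h_P2_WT q_T1 h_P2_T2 h_P2_JP q_ERR q_TMa q_TMb q_TMc
  have q_AS0 : Q_AS0 := AS0.main h_P_NF h_P2_NB h_P2_WT q_LM q_M1L q_MLOW q_TM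
  have h_P2_BF : P2_BF := T2_BF
  have h_P2_HB : P2_HB := T2_HB
  have h_P2_HD : P2_HD := T2_HD h_P2_BF h_P2_HB
  have h_P2_CH : P2_CH := T2_CH
  have h_P2_BHa : P2_BHa := T2_BHa
  have h_P2_MP : P2_MP := T2_MP
  have q_SQ : Q_SQ := SQ.main h_P2_BF h_P2_HB h_P2_HD h_P2_CH h_P2_BHa q_AS0
  have q_EXC : Q_EXC := EXC.main h_P_N0 h_P_N0d h_P_N1 h_P_N3 h_P_N4 h_P_KF h_P_N5b h_P_N6
  have q_EXCF : SH.AR.Q_EXCF := SH.AR.main h_P_N0 h_P_N0d h_P_N1 h_P_N3 h_P_N5 h_P_N6 q_EXC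
  exact ⟨q_SQ, q_EXCF, h_P2_CH, h_P2_MP, q_AS0⟩

omit [Lam] in
/-- the choice of the parameter -/
theorem choose_lam (a θ : ℝ) (ha : 2 < a) (hθ : a / (2 * (a - 1)) < θ) :
    ∃ l : Lam, 1 / (2 * θ) < @ee l a := by
  have ha1 : 0 < a - 1 := by linarith
  have ha0 : 0 < a := by linarith
  have hθ0 : 0 < θ := lt_trans (by positivity) hθ
  set g : ℝ := 1 - a / (2 * θ * (a - 1)) with hg
  have hg0 : 0 < g := by
    rw [hg, sub_pos, div_lt_one (by positivity)]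
    rw [div_lt_iff₀ (by positivity)] at hθ
    linarith
  have hg1 : g ≤ 1 := by
    rw [hg]
    have : 0 ≤ a / (2 * θ * (a - 1)) := by positivity
    linarith
  refine ⟨⟨g, hg0, hg1⟩, ?_⟩
  set l : Lam := ⟨g, hg0, hg1⟩ with hl
  have h1 : @cc l a ≤ g / 32 := by
    show g * ((a - 2) / (32 * (a - 1))) ≤ g / 32
    have h2 : (a - 2) / (32 * (a - 1)) ≤ 1 / 32 := by
      rw [div_le_div_iff₀ (by linarith) (by norm_num)]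
      linarith
    nlinarith
  have h2 : @ee l a = (1 - 8 * @cc l a) * ((a - 1) / a) := by
    show (1 - 8 * @cc l a) * (a - 1) / a = _
    ring
  have h3 : 0 < (a - 1) / a := by positivity
  have h4 : 1 / (2 * θ) = (1 - g) * ((a - 1) / a) := by
    rw [hg]
    field_simp
    ring
  rw [h2, h4]
  apply mul_lt_mul_of_pos_right _ h3
  linarith

omit [Lam] in
/-- the final theorem -/
theorem final (a θ ε τ : ℝ) (ha : 2 < a)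
    (hθ : a / (2 * (a - 1)) < θ) (hθ1 : θ ≤ 1) (hε : 0 < ε) (hτ : 0 < τ) :
    ∃ x0 : ℕ, ∀ x ≥ x0, ∀ H : ℕ, (x : ℝ) ^ θ ≤ H → H ≤ x → ∀ Q : Set ℕ,
      (((Finset.Ioc x (x + H)).filter (fun d => Squarefree d ∧
        (∀ q ∈ Q, q.Prime → ¬ q ∣ d) ∧ ¬ (GoodE a ε d ∧ GoodAR a d))).card : ℝ) ≤
      τ * H * ∏ q ∈ (Finset.Icc 2 x).filter (fun q => q.Prime ∧ q ∈ Q), (1 - 1 / (q : ℝ)) := by
  obtain ⟨l, hl⟩ := choose_lam a θ ha hθ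
  have hθ2 : 1 / 2 < θ := by
    refine lt_of_le_of_lt ?_ hθ
    rw [div_le_div_iff₀ (by norm_num) (by linarith)]
    linarith
  have h := @all l
  exact @Final.final l h.1 h.2.1 h.2.2.1 a θ ε τ ha hθ2 hl hθ1 hε hτ

end Pool.Agent.H52.W.SH
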