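import Pool.Agent.H52.W.CG2.Stubs

/-!
# Project SH: class groups of real quadratic fields in short intervals

The library project H38R2 (directories `V/S8/H38R2/CG`, `CG2`, `CG3`) proves a mean value theorem for
the discriminants `D` of `(X, (1 + η) X]`, `η` fixed, with families of products of primes whose size is
governed by the same `X`. Here the two roles of `X` are separated: `X` is the parameter of the family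
(`PA a X`, `kA a X`, `SA a X`, `NA a X`, the sieve weights of level `X ^ (cc a)`), and `D` runs through
`(T, T + X]`, where `X ≤ T` and `√T ≤ X ^ (3/4 - 1/(2a) - κ)`.  So the `X` of the lengths of the
intervals is replaced by nothing, `η X` becomes `X`, and `η √X` becomes `X / √T`.

Every statement `Q_XXX` below is the analogue of the statement `P2_XXX` of `CG2/Stubs.lean`
(`P3_AS0` of `CG3/AS0.lean` for `Q_AS0`).  The proof is that of `T2_XXX` (file `CG2/XXX.lean`) with these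
replacements.
-/

set_option autoImplicit false

namespace Pool.Agent.H52.W.SH

variable [Lam]

open Finset Filter NumberField Pool.Agent.H38R2.CG Pool.Agent.H52.W.CG2
open scoped Classical

/-! ## Definitions -/

/-- The integers of `(T, T + X]` congruent to `r`. -/
noncomputable def DT (z r X T : ℕ) : Finset ℕ := (Finset.Ioc T (T + X)).filter (fun D => D % Qz z = r)

/-- The fundamental discriminants of `(T, T + X]` congruent to `r`. -/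
noncomputable def FT (z r X T : ℕ) : Finset ℕ := (DT z r X T).filter IsFund

/-- the exponent of the number of products -/
noncomputable def ee (a : ℝ) : ℝ := th a * (a - 1) / a

theorem ee_eq {a : ℝ} (ha : 2 < a) : ee a = th a - th a / a := by
  unfold ee
  have : a ≠ 0 := by linarith
  field_simp

theorem th_ge {a : ℝ} (ha : 2 < a) : 3 / 4 < th a := by
  unfold th
  have := cclt ha
  linarith

theorem ee_lt {a : ℝ} (ha : 2 < a) : ee a < th a := by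
  rw [ee_eq ha]
  have h1 := th_ge ha
  have h2 : 0 < th a / a := div_pos (by linarith) (by linarith)
  linarith

theorem ee_le {a : ℝ} (ha : 2 < a) : ee a ≤ 1 - 8 * cc a := (ee_lt ha).le

/-- The region of the parameters: the interval is not longer than its starting point, and not too
short. -/
def RG (a κ : ℝ) (X T : ℕ) : Prop :=
  X ≤ T ∧ √(T : ℝ) ≤ (X : ℝ) ^ (ee a - κ)

/-- the density of the solutions with given `v`, for `D ∈ (T, T + X]` -/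
noncomputable def omT (X T : ℕ) (v n : ℝ) : ℝ := om T ((X : ℝ) / (T : ℝ)) v n

/-- expected size of the weighted number of `D` -/
noncomputable def WS (z X : ℕ) (ρ : ℕ → ℝ) : ℝ := (X : ℝ) / Qz z * GG X ρ

/-- the sum over v for given c, s, t -/
noncomputable def MS (a : ℝ) (z r X T : ℕ) (ρ : ℕ → ℝ) (c s t : Finset ℕ) : ℝ :=
  ∑ v ∈ Finset.Icc 1 ⌊(X : ℝ) ^ (1 - cc a)⌋₊,
    omT X T v (prodS c ^ 2 * (prodS s * prodS t) : ℕ) / Qz z *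
      ((rhoQ z r (prodS c ^ 2 * (prodS s * prodS t)) v : ℝ) * JJ z X ρ c (prodS s * prodS t) v)

/-- exceptional discriminants: the Cauchy-Schwarz inequality is far from equality (the same as `CG3.Bd`) -/
def BdS (a t0 : ℝ) (X D : ℕ) : Prop :=
  (1 + t0) * (MD D (SA a X) (fun _ => 1)) ^ 2 ≤
    2 * √(D : ℝ) * Lone D * SD D (SA a X) (fun _ => 1)

/-! ## Statements -/

/-- SH-NB: the number of products, sharp exponent (compare the second item of `P2_NB`). -/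
def Q_NB : Prop := ∀ a : ℝ, 2 < a → ∀ ε : ℝ, 0 < ε → ∃ X0 : ℕ, ∀ X ≥ X0,
  (X : ℝ) ^ (ee a - ε) ≤ NA a X

/-- SH-V0 (helper52): weighted number of D divisible by e. -/
def Q_V0 : Prop := ∀ (z r X T : ℕ) (P : Finset ℕ) (δ : ℝ) (C0 : ℕ) (ρ : ℕ → ℝ) (e : ℕ),
  r < Qz z → 1 ≤ X → δ ≤ 1 → SWt z X P δ C0 ρ → 1 ≤ e → e.Coprime (Qz z) →
  |(∑ D ∈ (DT z r X T).filter (fun D => e ∣ D), wt ρ D) -
    X / Qz z * ∑ d ∈ Finset.Icc 1 X, ρ d / (Nat.lcm d e : ℝ)| ≤ 2 * (X : ℝ) ^ δ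

/-- SH-V1: cancellation of Jacobi symbols. -/
def Q_V1 : Prop := ∀ a : ℝ, 2 < a → ∀ κ : ℝ, 0 < κ → ∀ (z r : ℕ), FundRes z r →
  ∀ C0 : ℕ, ∃ X0 : ℕ, ∀ X ≥ X0, ∀ T : ℕ, RG a κ X T →
  ∀ ρ : ℕ → ℝ, SWt z X (PA a X) (cc a) C0 ρ →
  ∀ m : ℕ, 1 ≤ m → m.Coprime (Qz z) → ¬ IsSquare m →
    ((m : ℝ) ≤ (X : ℝ) ^ (2 * th a + 2 * cc a) →
      |∑ D ∈ DT z r X T, wt ρ D * ((jacobiSym (D : ℤ) m : ℤ) : ℝ)| ≤ (X : ℝ) ^ (1 - cc a)) ∧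
    ((m : ℝ) ≤ (X : ℝ) ^ (th a + 2 * cc a) →
      |∑ D ∈ FT z r X T, wt ρ D * ((jacobiSym (D : ℤ) m : ℤ) : ℝ)| ≤ (X : ℝ) ^ (1 - cc a))

/-- SH-LM: weighted first moment of L(1, chi_D). -/
def Q_LM : Prop := ∀ a : ℝ, 2 < a → ∀ κ : ℝ, 0 < κ → ∀ (z r : ℕ), 2 ≤ z → FundRes z r →
  ∀ C0 : ℕ, 1 ≤ C0 → ∀ ε : ℝ, 0 < ε → ∃ X0 : ℕ, ∀ X ≥ X0, ∀ T : ℕ, RG a κ X T →
  ∀ ρ : ℕ → ℝ, SWt z X (PA a X) (cc a) C0 ρ →
    ∑ D ∈ FT z r X T, wt ρ D * Lone D ≤ (1 + ε) * (1 + 4 / z) * WS z X ρ / PiR z r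

/-- SH-M1L: weighted first moment of the ideal counts, lower bound. -/
def Q_M1L : Prop := ∀ a : ℝ, 2 < a → ∀ κ : ℝ, 0 < κ → ∀ (z r : ℕ), 2 ≤ z → FundRes z r →
  ∀ C0 : ℕ, 1 ≤ C0 → ∀ ε : ℝ, 0 < ε → ∃ X0 : ℕ, ∀ X ≥ X0, ∀ T : ℕ, RG a κ X T →
  ∀ ρ : ℕ → ℝ, SWt z X (PA a X) (cc a) C0 ρ → ∀ s ∈ SA a X,
    (1 - ε - 2 * C0 / z) * WS z X ρ ≤
      ∑ D ∈ FT z r X T, wt ρ D * ∏ p ∈ s, (1 + (chi D p : ℝ))

/-- SH-MLOW: for almost all D (in the weighted sense) there are enough ideals. -/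
def Q_MLOW : Prop := ∀ a : ℝ, 2 < a → ∀ κ : ℝ, 0 < κ → ∀ (z r : ℕ), FundRes z r →
  ∀ C0 : ℕ, 1 ≤ C0 → ∀ ε : ℝ, 0 < ε → ∃ X0 : ℕ, ∀ X ≥ X0, ∀ T : ℕ, RG a κ X T →
  ∀ ρ : ℕ → ℝ, SWt z X (PA a X) (cc a) C0 ρ →
    ∑ D ∈ (DT z r X T).filter (fun D => MD D (SA a X) (fun _ => 1) < (1 - ε) * NA a X), wt ρ D ≤
      ε * WS z X ρ

/-- SH-T1 (helper52): one n. -/
def Q_T1 : Prop := ∀ (z r X T n : ℕ) (P : Finset ℕ) (δ : ℝ) (C0 : ℕ) (ρ : ℕ → ℝ),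
  r < Qz z → 1 ≤ X → X ≤ T → 1 ≤ n → 0 ≤ δ → δ ≤ 1 → SWt z X P δ C0 ρ →
  ∑ D ∈ DT z r X T, wt ρ D * Rsum D n ≤
    (if IsSquare n then ∑ D ∈ DT z r X T, wt ρ D else 0) +
    2 * ∑ v ∈ Finset.Icc 1 ⌊2 * √((n : ℝ) / T)⌋₊,
      (omT X T v n / Qz z * ∑ d ∈ Finset.Icc 1 X, ρ d / d * (RR z r n v d : ℝ) +
        ∑ d ∈ Finset.Icc 1 X, |ρ d| * (RR z r n v d : ℝ))

/-- SH-ERR: the error terms and the diagonal. -/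
def Q_ERR : Prop := ∀ a : ℝ, 2 < a → ∀ κ : ℝ, 0 < κ → ∀ (z r : ℕ), FundRes z r →
  ∀ C0 : ℕ, 1 ≤ C0 → ∀ ε : ℝ, 0 < ε → ∃ X0 : ℕ, ∀ X ≥ X0, ∀ T : ℕ, RG a κ X T →
  ∀ ρ : ℕ → ℝ, SWt z X (PA a X) (cc a) C0 ρ →
    (∑ s ∈ SA a X, ∑ t ∈ SA a X, 2 ^ ((s ∩ t).card) *
      ((if IsSquare (prodS s * prodS t) then ∑ D ∈ DT z r X T, wt ρ D else 0) +
      2 * ∑ v ∈ Finset.Icc 1 ⌊2 * √(((prodS s * prodS t : ℕ) : ℝ) / T)⌋₊,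
        ∑ d ∈ Finset.Icc 1 X, |ρ d| * (RR z r (prodS s * prodS t) v d : ℝ))) ≤
      ε * GG X ρ * (X / √(T : ℝ)) * (NA a X) ^ 2

/-- SH-TMa: pairs of disjoint sets. -/
def Q_TMa : Prop := ∀ a : ℝ, 2 < a → ∀ κ : ℝ, 0 < κ → ∀ (z r : ℕ), 2 ≤ z → FundRes z r →
  ∀ C0 : ℕ, 1 ≤ C0 → ∀ ε : ℝ, 0 < ε → ∃ X0 : ℕ, ∀ X ≥ X0, ∀ T : ℕ, RG a κ X T →
  ∀ ρ : ℕ → ℝ, SWt z X (PA a X) (cc a) C0 ρ →
    ∑ s ∈ SA a X, ∑ t ∈ SA a X, MS a z r X T ρ ∅ s t ≤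
      (1 + ε) * (PiR z r / (4 * Qz z)) * GG X ρ * (X / √(T : ℝ)) * (NA a X) ^ 2

/-- SH-TMb: pairs with a small intersection. -/
def Q_TMb : Prop := ∀ a : ℝ, 2 < a → ∀ κ : ℝ, 0 < κ → ∀ (z r : ℕ), 2 ≤ z → FundRes z r →
  ∀ C0 i0 : ℕ, 1 ≤ C0 → ∃ X0 : ℕ, ∀ X ≥ X0, ∀ T : ℕ, RG a κ X T →
  ∀ ρ : ℕ → ℝ, SWt z X (PA a X) (cc a) C0 ρ → ∀ c ⊆ PA a X, c.card ≤ i0 →
    ∑ s ∈ (PA a X).powersetCard (kA a X - c.card),
      ∑ t ∈ (PA a X).powersetCard (kA a X - c.card), MS a z r X T ρ c s t ≤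
      2 ^ (z + 5) * 3 ^ c.card * GG X ρ * (X / √(T : ℝ)) * (CA a X (kA a X - c.card)) ^ 2

/-- SH-TMc: pairs with any intersection, lossy. -/
def Q_TMc : Prop := ∀ a : ℝ, 2 < a → ∀ κ : ℝ, 0 < κ → ∀ (z r : ℕ), 2 ≤ z → FundRes z r →
  ∀ C0 : ℕ, 1 ≤ C0 → ∃ X0 : ℕ, ∀ X ≥ X0, ∀ T : ℕ, RG a κ X T →
  ∀ ρ : ℕ → ℝ, SWt z X (PA a X) (cc a) C0 ρ → ∀ c ⊆ PA a X, c.card ≤ kA a X →
    ∑ s ∈ (PA a X).powersetCard (kA a X - c.card),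
      ∑ t ∈ (PA a X).powersetCard (kA a X - c.card), MS a z r X T ρ c s t ≤
      2 ^ (z + 5) * 3 ^ c.card * (1 + Real.log X) ^ (2 * C0) * GG X ρ * (X / √(T : ℝ)) *
        (CA a X (kA a X - c.card)) ^ 2

/-- SH-TM: the near collision bound. -/
def Q_TM : Prop := ∀ a : ℝ, 2 < a → ∀ κ : ℝ, 0 < κ → ∀ (z r : ℕ), 2 ≤ z → FundRes z r →
  ∀ C0 : ℕ, 1 ≤ C0 → ∀ ε : ℝ, 0 < ε → ∃ X0 : ℕ, ∀ X ≥ X0, ∀ T : ℕ, RG a κ X T →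
  ∀ ρ : ℕ → ℝ, SWt z X (PA a X) (cc a) C0 ρ →
    ∑ D ∈ DT z r X T, wt ρ D * SD D (SA a X) (fun _ => 1) ≤
      (1 + ε) * (PiR z r / (2 * Qz z)) * GG X ρ * (X / √(T : ℝ)) * (NA a X) ^ 2

/-- SH-AS0: few exceptional discriminants, in the weighted sense. -/
def Q_AS0 : Prop := ∀ a : ℝ, 2 < a → ∀ κ : ℝ, 0 < κ → ∀ t0 : ℝ, 0 < t0 → ∀ C0 : ℕ, 1 ≤ C0 →
  ∀ ε : ℝ, 0 < ε → ∃ z0 : ℕ, ∀ z ≥ z0, ∃ η1 : ℝ, 0 < η1 ∧ η1 ≤ 1 ∧ ∀ r : ℕ, FundRes z r →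
  ∃ X0 : ℕ, ∀ X ≥ X0, ∀ T : ℕ, RG a κ X T → (X : ℝ) ≤ η1 * T →
  ∀ ρ : ℕ → ℝ, SWt z X (PA a X) (cc a) C0 ρ →
    ∑ D ∈ (FT z r X T).filter (fun D => BdS a t0 X D), wt ρ D ≤ ε * WS z X ρ

end Pool.Agent.H52.W.SH
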